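import Pool.Agent.H89FL.Sys

set_option autoImplicit false
set_option linter.unusedSectionVars false

/-!
Chains of subgroups modulo which a structure is linked.
-/

namespace Pool.Agent.H89FL

open Pool.Agent.H315R3.ETC Pool.Agent.W622.ETG Module
open Pool.Agent.TH188.ET (exists_char exists_factor)
open Pool.Agent.TH188.ET8 (QD_eq QD_zero isQuat_QD linked_of_PE PE_of_MX Closed)

universe v

section
variable {S : QData} {B : Type v} [AddCommGroup B] {β : S.G → S.G → B}

/-- chains `0 = C₀ ≤ … ≤ C_k`, each of index at most two in the next, with linkage modulo each -/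
structure ChainG (β : S.G → S.G → B) (k : ℕ) (C : ℕ → AddSubgroup B) : Prop where
  zero : C 0 = ⊥
  idx : ∀ i < k, Index2 (C i) (C (i + 1))
  link : ∀ i ≤ k, LinkedG β (C i)

/-- `C` is generated by symbols -/
def SymG (β : S.G → S.G → B) (C : AddSubgroup B) : Prop :=
  C ≤ AddSubgroup.closure {t | t ∈ C ∧ ∃ a b, t = β a b}

/-- `t` is good modulo `C`: if it is a sum of values with slots `a` and `c`, it is a value with
slot `a`, `c` or `ac` (modulo `C`) -/
def GoodG (β : S.G → S.G → B) (C : AddSubgroup B) (t : B) : Prop :=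
  ∀ a c x y : S.G, t + (β a x + β c y) ∈ C → ∃ z, t + β a z ∈ C ∨ t + β c z ∈ C ∨
    t + β (a * c) z ∈ C

variable [Module (ZMod 2) (Additive S.G)]

theorem hered_chain (H : Sys S β) {k : ℕ} {C : ℕ → AddSubgroup B} (hC : ChainG β k C)
    (hk : Hered (fam H (C k))) : Hered (fam H (⊥ : AddSubgroup B)) := by
  have : Finite (Additive S.G) := H.fin
  have key : ∀ j ≤ k, Hered (fam H (C (k - j))) := by
    intro j
    induction j with
    | zero => intro _; exact hk
    | succ j ih =>
      intro hj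
      have h1 := ih (by omega)
      have h2 : k - j = (k - (j + 1)) + 1 := by omega
      rw [h2] at h1
      exact (hyp_fam H (hC.idx (k - (j + 1)) (by omega))).hered (fam_efam H _)
        (linked_fam H (hC.link _ (by omega))) h1
  have h1 := key k le_rfl
  rwa [Nat.sub_self, hC.zero] at h1

/-- `QD` of the family is the structure -/
theorem iso_fam (H : Sys S β) : Iso (QD (ee S) (fam H (⊥ : AddSubgroup B))) S := by
  refine ⟨MulEquiv.multiplicativeAdditive S.G, rfl, ?_⟩
  intro a b c d
  refine Iff.trans (QD_eq _ _ _ _ _) ?_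
  constructor
  · intro h
    show S.q a.toAdd.toMul b.toAdd.toMul = S.q c.toAdd.toMul d.toAdd.toMul
    rw [← H.iff]
    have h1 := mem_of_fam H (C := ⊥) (a := a.toAdd.toMul) (b := b.toAdd.toMul)
      (c := c.toAdd.toMul) (d := d.toAdd.toMul) h
    rw [AddSubgroup.mem_bot, H.eqz] at h1
    exact h1
  · intro h ω hω
    have h1 : β a.toAdd.toMul b.toAdd.toMul + β c.toAdd.toMul d.toAdd.toMul ∈
        (⊥ : AddSubgroup B) := by
      rw [AddSubgroup.mem_bot, H.eqz, H.iff]
      exact h
    exact eq_of_mem H h1 hω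

theorem elem_of_hered (H : Sys S β) (h : Hered (fam H (⊥ : AddSubgroup B))) : Elem S := by
  obtain ⟨hcore, -, hout, -⟩ := Pool.Agent.W622.ETG.all_parts
  have : Finite (Additive S.G) := H.fin
  exact Elem.iso _ _ (hout _ _ _ (hcore _ _ _ (fam_efam H _) h)) (iso_fam H)

theorem iso_symm {S T : QData} (h : Iso S T) : Iso T S := by
  obtain ⟨φ, h1, h2⟩ := h
  refine ⟨φ.symm, by rw [← h1, φ.symm_apply_apply], ?_⟩
  intro a b c d
  rw [h2, φ.apply_symm_apply, φ.apply_symm_apply, φ.apply_symm_apply, φ.apply_symm_apply]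

theorem symG_bot : SymG β (⊥ : AddSubgroup B) := bot_le

theorem linkedG_bot (H : Sys S β) : LinkedG β (⊥ : AddSubgroup B) := by
  intro a b c d h
  rw [AddSubgroup.mem_bot, H.eqz, H.iff] at h
  obtain ⟨x, h1, h2⟩ := H.isq.qs4 _ _ _ _ h
  refine ⟨x, ?_, ?_⟩
  · rw [AddSubgroup.mem_bot, H.eqz, H.iff]; exact h1
  · rw [AddSubgroup.mem_bot, H.eqz, H.iff]; exact h2

theorem hered_of_elem_fam (H : Sys S β) {C : AddSubgroup B} (hC : SymG β C)
    (hL : LinkedG β C) (hE : Elem (QD (ee S) (fam H C))) : Hered (fam H C) := by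
  have : Finite (Additive S.G) := H.fin
  exact hered_of_elem (fam_efam H C) (linked_fam H hL) (closed_fam H hC) hE

/-- common slot modulo `C` -/
theorem hered_of_slot (H : Sys S β) {C : AddSubgroup B} (hL : LinkedG β C) (u : S.G)
    (hu : ∀ a b, ∃ c, β a b + β u c ∈ C) : Hered (fam H C) := by
  have hfin : Finite (Additive S.G) := H.fin
  have hU : Pool.Agent.H89QU.Uni (ee S) (Additive.ofMul u) (fam H C) := by
    refine ⟨fam_efam H C, linked_fam H hL, ?_⟩
    rintro _ ⟨l, hl, rfl⟩ h
    have h1 : l = 0 := by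
      refine H.gen l fun a b => ?_
      obtain ⟨c, hc⟩ := hu a b
      have h2 := hl _ hc
      rw [map_add] at h2
      rw [CharTwo.add_eq_zero.1 h2]
      exact LinearMap.congr_fun h (Additive.ofMul c)
    rw [h1]
    ext a b
    rfl
  obtain ⟨-, -, hout, -⟩ := Pool.Agent.W622.ETG.all_parts
  exact hered_of_elem hU.ef hU.li (closed_of_uni hU)
    (hout _ _ _ (Pool.Agent.H89QU.el_of_uni _ _ rfl hU))

/-- the subgroup killed by a family -/
def annG (H : Sys S β) (A : Fam (Additive S.G)) : AddSubgroup B where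
  carrier := {t | ∀ l : B →+ ZMod 2, frm H l ∈ A → l t = 0}
  zero_mem' := fun l _ => map_zero l
  add_mem' := fun {x y} hx hy l hl => by rw [map_add, hx l hl, hy l hl, add_zero]
  neg_mem' := fun {x} hx l hl => by rw [map_neg, hx l hl, neg_zero]

theorem mem_annG {H : Sys S β} {A : Fam (Additive S.G)} {t : B} :
    t ∈ annG H A ↔ ∀ l : B →+ ZMod 2, frm H l ∈ A → l t = 0 := Iff.rfl

theorem annG_bot (H : Sys S β) : annG H ⊥ = ⊤ := by
  rw [eq_top_iff]
  intro t _ l hl
  have h1 : l = 0 := by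
    refine H.gen l fun a b => ?_
    rw [Submodule.mem_bot] at hl
    exact LinearMap.congr_fun (LinearMap.congr_fun hl (Additive.ofMul a)) (Additive.ofMul b)
  rw [h1]; rfl

theorem annG_fam_bot (H : Sys S β) : annG H (fam H (⊥ : AddSubgroup B)) = ⊥ := by
  rw [eq_bot_iff]
  intro t ht
  by_contra hcon
  obtain ⟨l, -, h2⟩ := exists_char (⊥ : AddSubgroup B)
    (fun x => by rw [H.two]; exact AddSubgroup.zero_mem _) t hcon
  exact h2 (ht l ⟨l, fun c hc => by rw [(AddSubgroup.mem_bot).1 hc, map_zero], rfl⟩)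

theorem annG_linked (H : Sys S β) {A : Fam (Additive S.G)}
    (hle : A ≤ fam H (⊥ : AddSubgroup B)) (hL : Linked A) : LinkedG β (annG H A) := by
  obtain ⟨-, hPL, -, -⟩ := Pool.Agent.W622.ETG.all_parts
  have : Finite (Additive S.G) := H.fin
  have hEF : EFam (ee S) A := fun ω h => fam_efam H ⊥ ω (hle h)
  intro a b c d h
  obtain ⟨z, h1, h2, -⟩ := hPL _ (ee S) A hEF hL (Additive.ofMul a) (Additive.ofMul c)
    (Additive.ofMul b) (Additive.ofMul d) (fun ω hω => by
      obtain ⟨l, -, rfl⟩ := hle hω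
      have h3 := h l hω
      rw [map_add] at h3
      exact CharTwo.add_eq_zero.1 h3)
  refine ⟨z.toMul, fun l hl => ?_, fun l hl => ?_⟩
  · have h3 := h1 _ hl
    rw [map_add] at h3
    rw [map_add]
    exact h3
  · have h3 := h2 _ hl
    rw [map_add] at h3
    rw [map_add]
    exact h3

theorem annG_index (H : Sys S β) {A A' : Fam (Additive S.G)}
    (hle : A ≤ fam H (⊥ : AddSubgroup B)) (hy : Hyp A A') :
    Index2 (annG H A) (annG H A') := by
  refine ⟨fun t ht l hl => ht l (hy.le hl), ?_⟩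
  intro u hu v hv
  by_contra hcon
  push Not at hcon
  obtain ⟨h1, h2, h3⟩ := hcon
  rw [mem_annG] at h1 h2 h3
  push Not at h1 h2 h3
  obtain ⟨l1, m1, n1⟩ := h1
  obtain ⟨l2, m2, n2⟩ := h2
  obtain ⟨l3, m3, n3⟩ := h3
  have add : ∀ l l' : B →+ ZMod 2, frm H l + frm H l' = frm H (l + l') := by
    intro l l'
    ext a b
    rfl
  have o1 : frm H l1 ∉ A' := fun h => n1 (hu l1 h)
  have o2 : frm H l2 ∉ A' := fun h => n2 (hv l2 h)
  have o3 : frm H l3 ∉ A' := by
    intro h
    apply n3
    rw [map_add, hu l3 h, hv l3 h, add_zero]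
  have e1 : (l1 + l3) u = 0 := hu _ (by rw [← add]; exact hy.idx _ m1 _ m3 o1 o3)
  have e2 : (l2 + l3) v = 0 := hv _ (by rw [← add]; exact hy.idx _ m2 _ m3 o2 o3)
  rw [AddMonoidHom.add_apply] at e1 e2
  apply n3
  rw [map_add, ← CharTwo.add_eq_zero.1 e1, ← CharTwo.add_eq_zero.1 e2, z_ne n1, z_ne n2]
  exact zadd 1

theorem annG_sk (H : Sys S β) (A : Fam (Additive S.G)) (a b : Additive S.G) :
    annG H (sk A a b) = annG H A ⊔ AddSubgroup.zmultiples (β a.toMul b.toMul) := by
  have add : ∀ l l' : B →+ ZMod 2, frm H l + frm H l' = frm H (l + l') := by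
    intro l l'
    ext a b
    rfl
  apply le_antisymm
  · intro t ht
    by_cases h0 : t ∈ annG H A
    · exact AddSubgroup.mem_sup_left h0
    rw [mem_annG] at h0
    push Not at h0
    obtain ⟨l0, m0, n0⟩ := h0
    have hs0 : l0 (β a.toMul b.toMul) ≠ 0 := fun h => n0 (ht l0 ⟨m0, h⟩)
    have h1 : t + β a.toMul b.toMul ∈ annG H A := by
      intro l hl
      rw [map_add]
      by_cases h2 : l (β a.toMul b.toMul) = 0
      · rw [h2, ht l ⟨hl, h2⟩, add_zero]
      · have h3 : (l + l0) t = 0 := by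
          refine ht _ ⟨?_, ?_⟩
          · rw [← add]; exact A.add_mem hl m0
          · rw [frm_apply, AddMonoidHom.add_apply, z_ne h2, z_ne hs0]
            exact zadd 1
        rw [AddMonoidHom.add_apply] at h3
        rw [CharTwo.add_eq_zero.1 h3, z_ne n0, z_ne h2]
        exact zadd 1
    refine AddSubgroup.mem_sup.2 ⟨_, h1, _, AddSubgroup.mem_zmultiples (β a.toMul b.toMul), ?_⟩
    rw [add_assoc, H.two, add_zero]
  · refine sup_le (fun t ht l hl => ht l hl.1) ?_
    rw [AddSubgroup.zmultiples_le]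
    intro l hl
    exact hl.2

/-- chains `0 = C₀ ≤ … ≤ C_k`, each generated by the previous one and a symbol, with linkage
modulo each -/
structure SChainG (β : S.G → S.G → B) (k : ℕ) (C : ℕ → AddSubgroup B) : Prop where
  zero : C 0 = ⊥
  next : ∀ i < k, ∃ a b : S.G, C (i + 1) = C i ⊔ AddSubgroup.zmultiples (β a b)
  link : ∀ i ≤ k, LinkedG β (C i)

theorem chain_of_sl (H : Sys S β) {A : Fam (Additive S.G)} (h : Sl A) :
    A ≤ fam H (⊥ : AddSubgroup B) → ∃ (k : ℕ) (C : ℕ → AddSubgroup B), C 0 = annG H A ∧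
      C k = ⊤ ∧ (∀ i < k, ∃ a b : S.G, C (i + 1) = C i ⊔ AddSubgroup.zmultiples (β a b)) ∧
      (∀ i ≤ k, LinkedG β (C i)) := by
  induction h with
  | bot =>
    intro hle
    refine ⟨0, fun _ => annG H ⊥, rfl, annG_bot H, fun i hi => absurd hi (Nat.not_lt_zero _),
      fun _ _ => annG_linked H hle hered_bot.linked⟩
  | step A a b hL _ ih =>
    intro hle
    obtain ⟨k, C, h0, hk, h1, h2⟩ := ih ((sk_hyp A a b).le.trans hle)
    refine ⟨k + 1, fun i => Nat.casesOn i (annG H A) C, rfl, hk, ?_, ?_⟩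
    · rintro (_ | i) hi
      · refine ⟨a.toMul, b.toMul, ?_⟩
        show C 0 = annG H A ⊔ _
        rw [h0, annG_sk]
      · exact h1 i (by omega)
    · rintro (_ | i) hi
      · exact annG_linked H hle hL
      · exact h2 i (by omega)

/-- structures of elementary type have complete chains -/
theorem chain_of_elem (H : Sys S β) (hE : Elem S) :
    ∃ (k : ℕ) (C : ℕ → AddSubgroup B), SChainG β k C ∧ C k = ⊤ := by
  obtain ⟨hcore, -, -, -⟩ := Pool.Agent.W622.ETG.all_parts
  have : Finite (Additive S.G) := H.fin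
  have h1 : Hered (fam H (⊥ : AddSubgroup B)) :=
    hered_of_elem_fam H symG_bot (linkedG_bot H) (Elem.iso _ _ hE (iso_symm (iso_fam H)))
  have h2 : Sl (fam H (⊥ : AddSubgroup B)) := el_sl _ _ rfl (hcore _ _ _ (fam_efam H _) h1)
  obtain ⟨k, C, h3, h4, h5, h6⟩ := chain_of_sl H h2 le_rfl
  rw [annG_fam_bot] at h3
  exact ⟨k, C, ⟨h3, h5, h6⟩, h4⟩

/-- forms determine characters -/
theorem frm_inj (H : Sys S β) {l m : B →+ ZMod 2} (h : frm H l = frm H m) : l = m := by
  have h1 : l + m = 0 := by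
    refine H.gen _ fun a b => ?_
    have h2 := LinearMap.congr_fun (LinearMap.congr_fun h (Additive.ofMul a)) (Additive.ofMul b)
    have h3 : l (β a b) = m (β a b) := h2
    rw [AddMonoidHom.add_apply, h3]
    exact zadd _
  ext t
  have h2 := DFunLike.congr_fun h1 t
  rw [AddMonoidHom.add_apply] at h2
  exact CharTwo.add_eq_zero.1 h2

/-- the values with slot `p`, modulo `C` -/
theorem exists_of_vanish (H : Sys S β) {C : AddSubgroup B} {p : S.G} {t : B}
    (h : ∀ l : B →+ ZMod 2, (∀ c ∈ C, l c = 0) → (∀ z, l (β p z) = 0) → l t = 0) :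
    ∃ z, t + β p z ∈ C := by
  by_contra hcon
  push Not at hcon
  let Q : AddSubgroup B :=
    { carrier := {x | ∃ z, x + β p z ∈ C}
      zero_mem' := ⟨1, by rw [H.b1, add_zero]; exact C.zero_mem⟩
      add_mem' := by
        rintro x y ⟨z, hz⟩ ⟨w, hw⟩
        refine ⟨z * w, ?_⟩
        have := C.add_mem hz hw
        rw [H.mul]
        have e : x + β p z + (y + β p w) = x + y + (β p z + β p w) := by abel
        rwa [e] at this
      neg_mem' := by
        rintro x ⟨z, hz⟩
        refine ⟨z, ?_⟩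
        rwa [neg_eq_iff_add_eq_zero.2 (H.two x)] }
  have hQ : t ∉ Q := fun ⟨z, hz⟩ => hcon z hz
  obtain ⟨l, h1, h2⟩ := exists_char Q (fun x => by rw [H.two]; exact Q.zero_mem) t hQ
  apply h2
  refine h l (fun c hc => h1 c ⟨1, ?_⟩) (fun z => h1 _ ⟨z, ?_⟩)
  · rw [H.b1, add_zero]; exact hc
  · rw [H.two]; exact C.zero_mem

/-- if linkage modulo `C` is preserved by adding `t`, then `t` is good modulo `C` -/
theorem good_of_linked (H : Sys S β) {C : AddSubgroup B} {t : B}
    (hL' : LinkedG β (C ⊔ AddSubgroup.zmultiples t)) (hind : Index2 C (C ⊔ AddSubgroup.zmultiples t)) :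
    GoodG β C t := by
  intro a c x y hxy
  set C' := C ⊔ AddSubgroup.zmultiples t with hC'
  have hy := hyp_fam H hind
  have htC : t ∈ C' := AddSubgroup.mem_sup_right (AddSubgroup.mem_zmultiples t)
  have key : ∀ p : S.G, (∀ ω ∈ fam H C, ω (Additive.ofMul p) = 0 → ω ∈ fam H C') →
      ∃ z, t + β p z ∈ C := by
    intro p hp
    refine exists_of_vanish H fun l h1 h2 => ?_
    obtain ⟨m, h3, h4⟩ := hp (frm H l) ⟨l, h1, rfl⟩ (by
      ext z
      exact h2 z.toMul)
    rw [frm_inj H h4]
    exact h3 t htC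
  rcases hy.good (linked_fam H hL') (Additive.ofMul a) (Additive.ofMul c) (by
    rintro _ ⟨l, hl, rfl⟩ h1 h2
    have h3 := hl _ hxy
    have h4 : l (β a x) = 0 := LinearMap.congr_fun h1 (Additive.ofMul x)
    have h5 : l (β c y) = 0 := LinearMap.congr_fun h2 (Additive.ofMul y)
    rw [map_add, map_add, h4, h5, add_zero, add_zero] at h3
    refine ⟨l, ?_, rfl⟩
    have h6 : C' ≤ l.ker := by
      refine sup_le (fun c hc => hl c hc) ?_
      rw [AddSubgroup.zmultiples_le]
      exact h3
    exact fun c hc => h6 hc) with h | h | h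
  · obtain ⟨z, hz⟩ := key a h
    exact ⟨z, Or.inl hz⟩
  · obtain ⟨z, hz⟩ := key c h
    exact ⟨z, Or.inr (Or.inl hz)⟩
  · obtain ⟨z, hz⟩ := key (a * c) (by rw [ofMul_mul]; exact h)
    exact ⟨z, Or.inr (Or.inr hz)⟩

/-- adding a good element preserves linkage -/
theorem linked_of_good (H : Sys S β) {C : AddSubgroup B} (hL : LinkedG β C) {t : B}
    (ht : GoodG β C t) : LinkedG β (C ⊔ AddSubgroup.zmultiples t) := by
  have hmem : ∀ x, x ∈ C ⊔ AddSubgroup.zmultiples t ↔ x ∈ C ∨ t + x ∈ C := by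
    intro x
    constructor
    · intro hx
      obtain ⟨c, hc, y, hy, rfl⟩ := AddSubgroup.mem_sup.1 hx
      obtain ⟨n, rfl⟩ := AddSubgroup.mem_zmultiples_iff.1 hy
      rcases Int.even_or_odd' n with ⟨m, rfl | rfl⟩
      · left
        have h1 : (2 * m) • t = 0 := by
          rw [mul_comm, mul_smul, two_smul, H.two, smul_zero]
        rw [h1, add_zero]
        exact hc
      · right
        have h1 : (2 * m + 1) • t = t := by
          rw [add_smul, mul_comm, mul_smul, two_smul, H.two, smul_zero, zero_add, one_smul]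
        rw [h1, add_left_comm, H.two, add_zero]
        exact hc
    · rintro (h | h)
      · exact AddSubgroup.mem_sup_left h
      · refine AddSubgroup.mem_sup.2 ⟨t + x, h, t, AddSubgroup.mem_zmultiples t, ?_⟩
        rw [add_right_comm, H.two, zero_add]
  intro a b c d h
  rw [hmem] at h
  rcases h with h | h
  · obtain ⟨x, h1, h2⟩ := hL a b c d h
    exact ⟨x, (hmem _).2 (Or.inl h1), (hmem _).2 (Or.inl h2)⟩
  obtain ⟨z, h1 | h1 | h1⟩ := ht a c b d h
  · -- slot `a`
    have h2 : β a (b * z) + β c d ∈ C := by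
      have := C.add_mem h h1
      have e : t + (β a b + β c d) + (t + β a z) = (t + t) + (β a b + β a z + β c d) := by abel
      rwa [e, H.two, zero_add, ← H.mul] at this
    obtain ⟨x, h3, h4⟩ := hL _ _ _ _ h2
    refine ⟨x, (hmem _).2 (Or.inr ?_), (hmem _).2 (Or.inl h4)⟩
    have := C.add_mem h1 h3
    rw [H.mul] at this
    have e : t + β a z + (β a b + β a z + β a x) =
      (β a z + β a z) + (t + (β a b + β a x)) := by abel
    rwa [e, H.two, zero_add] at this
  · -- slot `c`
    have h2 : β a b + β c (d * z) ∈ C := by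
      have := C.add_mem h h1
      have e : t + (β a b + β c d) + (t + β c z) = (t + t) + (β a b + (β c d + β c z)) := by abel
      rwa [e, H.two, zero_add, ← H.mul] at this
    obtain ⟨x, h3, h4⟩ := hL _ _ _ _ h2
    refine ⟨x, (hmem _).2 (Or.inl h3), (hmem _).2 (Or.inr ?_)⟩
    have := C.add_mem h1 h4
    rw [H.mul] at this
    have e : t + β c z + (β c d + β c z + β c x) =
      (β c z + β c z) + (t + (β c d + β c x)) := by abel
    rwa [e, H.two, zero_add] at this
  · -- slot `ac`
    have h2 : β a (b * z) + β c (d * z) ∈ C := by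
      have := C.add_mem h h1
      rw [H.mul'] at this
      have e : t + (β a b + β c d) + (t + (β a z + β c z)) =
        (t + t) + ((β a b + β a z) + (β c d + β c z)) := by abel
      rwa [e, H.two, zero_add, ← H.mul, ← H.mul] at this
    obtain ⟨x, h3, h4⟩ := hL _ _ _ _ h2
    refine ⟨x * z, (hmem _).2 (Or.inl ?_), (hmem _).2 (Or.inl ?_)⟩
    · rw [H.mul] at h3 ⊢
      rwa [add_assoc, add_comm (β a z)] at h3
    · rw [H.mul] at h4 ⊢
      rwa [add_assoc, add_comm (β c z)] at h4

theorem index_sup (H : Sys S β) (C : AddSubgroup B) (t : B) :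
    Index2 C (C ⊔ AddSubgroup.zmultiples t) := by
  have hmem : ∀ x, x ∈ C ⊔ AddSubgroup.zmultiples t → x ∈ C ∨ t + x ∈ C := by
    intro x hx
    obtain ⟨c, hc, y, hy, rfl⟩ := AddSubgroup.mem_sup.1 hx
    obtain ⟨n, rfl⟩ := AddSubgroup.mem_zmultiples_iff.1 hy
    rcases Int.even_or_odd' n with ⟨m, rfl | rfl⟩
    · left
      have h1 : (2 * m) • t = 0 := by
        rw [mul_comm, mul_smul, two_smul, H.two, smul_zero]
      rw [h1, add_zero]
      exact hc
    · right
      have h1 : (2 * m + 1) • t = t := by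
        rw [add_smul, mul_comm, mul_smul, two_smul, H.two, smul_zero, zero_add, one_smul]
      rw [h1, add_left_comm, H.two, add_zero]
      exact hc
  refine ⟨le_sup_left, ?_⟩
  intro u hu v hv
  rcases hmem u hu with h1 | h1
  · exact Or.inl h1
  rcases hmem v hv with h2 | h2
  · exact Or.inr (Or.inl h2)
  refine Or.inr (Or.inr ?_)
  have := C.add_mem h1 h2
  have e : t + u + (t + v) = (t + t) + (u + v) := by abel
  rwa [e, H.two, zero_add] at this

/-- the reduction -/
theorem exists_bad (H : Sys S β) (hE : ¬ Elem S) : ∃ C : AddSubgroup B, SymG β C ∧ LinkedG β C ∧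
    (∀ T : QData, Iso (QD (ee S) (fam H C)) T → ¬ Elem T) ∧
    ∀ a b, β a b ∉ C → ¬ GoodG β C (β a b) := by
  classical
  have : Finite (Additive S.G) := H.fin
  have hfD : Finite (Dl (Additive S.G)) := Module.finite_of_finite (ZMod 2)
  have hfF : Finite (Frm (Additive S.G)) := Module.finite_of_finite (ZMod 2)
  let P : ℕ → Prop := fun n => ∃ C : AddSubgroup B, SymG β C ∧ LinkedG β C ∧
    ¬ Hered (fam H C) ∧ (fam H C : Set (Frm (Additive S.G))).ncard = n
  have hP : ∃ n, P n := ⟨_, ⊥, symG_bot, linkedG_bot H, fun h => hE (elem_of_hered H h), rfl⟩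
  obtain ⟨C, hC1, hC2, hC3, hC4⟩ := Nat.find_spec hP
  refine ⟨C, hC1, hC2, ?_, ?_⟩
  · intro T hT hT'
    exact hC3 (hered_of_elem_fam H hC1 hC2 (Elem.iso _ _ hT' (iso_symm hT)))
  · intro a b hab hg
    set C' := C ⊔ AddSubgroup.zmultiples (β a b) with hC'
    have h1 : LinkedG β C' := linked_of_good H hC2 hg
    have h2 : SymG β C' := by
      refine sup_le ?_ ?_
      · refine hC1.trans (AddSubgroup.closure_mono ?_)
        rintro t ⟨ht, h⟩
        exact ⟨AddSubgroup.mem_sup_left ht, h⟩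
      · rw [AddSubgroup.zmultiples_le]
        exact AddSubgroup.subset_closure
          ⟨AddSubgroup.mem_sup_right (AddSubgroup.mem_zmultiples _), a, b, rfl⟩
    have hy := hyp_fam H (index_sup H C (β a b))
    have h3 : ¬ Hered (fam H C') := fun h =>
      hC3 (hy.hered (fam_efam H C) (linked_fam H hC2) h)
    have h4 : fam H C' < fam H C := by
      refine lt_of_le_of_ne hy.le fun he => ?_
      obtain ⟨l, h5, h6⟩ := exists_char C (fun x => by rw [H.two]; exact C.zero_mem) _ hab
      have h7 : frm H l ∈ fam H C' := by rw [he]; exact ⟨l, h5, rfl⟩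
      obtain ⟨m, h8, h9⟩ := h7
      apply h6
      have h10 := LinearMap.congr_fun (LinearMap.congr_fun h9 (Additive.ofMul a))
        (Additive.ofMul b)
      have h11 : l (β a b) = m (β a b) := h10
      rw [h11]
      exact h8 _ (AddSubgroup.mem_sup_right (AddSubgroup.mem_zmultiples _))
    have h5 : (fam H C' : Set (Frm (Additive S.G))).ncard < Nat.find hP := by
      rw [← hC4]
      exact Set.ncard_lt_ncard (SetLike.coe_ssubset_coe.2 h4) (Set.toFinite _)
    exact Nat.find_min hP h5 ⟨C', h2, h1, h3, rfl⟩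

end

end Pool.Agent.H89FL
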