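import Pool.Agent.H89FL.Step
import Pool.Agent.TH188.ET.PlaneH

set_option autoImplicit false
set_option linter.unusedSectionVars false

/-!
Flags of linked families of forms.
-/

namespace Pool.Agent.H89FL

open Module Pool.Agent.W622.ETG
open Pool.Agent.TH188.ETP (mem_list)

section
variable {V : Type} [AddCommGroup V] [Module (ZMod 2) V] {e : V} {A A' : Fam V}

theorem kil_eq (hA : EFam e A) (b : V) : kil A b = res A (ann b) := by
  ext ω
  rw [mem_kil, mem_res_ann hA]

theorem Hyp.efam (H : Hyp A A') (hA : EFam e A) : EFam e A' := fun ω h => hA ω (H.le h)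

theorem Hyp.res (H : Hyp A A') (X : DSub V) : Hyp (res A X) (res A' X) where
  le := res_mono_left H.le X
  idx := by
    rintro ω ⟨hω, h1⟩ η ⟨hη, h2⟩ h3 h4
    refine ⟨H.idx ω hω η hη (fun h => h3 ⟨h, h1⟩) (fun h => h4 ⟨h, h2⟩), fun a => ?_⟩
    exact X.add_mem (h1 a) (h2 a)

/-- the main step in terms of `A[X]` -/
theorem Hyp.linked_ann (H : Hyp A A') (hA : EFam e A) (hL : Linked A) (hH : Hered A') (b : V) :
    Linked (W622.ETC.res A (ann b)) := by
  rw [← kil_eq hA]
  refine step H hL hH.linked (fun d => ?_) b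
  rw [kil_eq (H.efam hA)]
  exact hH _

theorem linked_list' (l : List V) : ∀ A A' : Fam V, Hyp A A' → EFam e A → Linked A → Hered A' →
    Linked (l.foldl (fun B u => W622.ETC.res B (ann u)) A) := by
  induction l with
  | nil => intro A _ _ _ h _; exact h
  | cons u l ih =>
    intro A A' H hA hL hH
    exact ih _ _ (H.res (ann u)) (hA.res _) (H.linked_ann hA hL hH u) (hH.res _)

/-- a linked family with a hereditarily linked subfamily of index two is hereditarily linked -/
theorem Hyp.hered [Finite V] (H : Hyp A A') (hA : EFam e A) (hL : Linked A) (hH : Hered A') :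
    Hered A := by
  classical
  intro X
  have : Fintype V := Fintype.ofFinite V
  let l : List V := (Finset.univ.filter (fun b : V => ∀ g ∈ X, g b = 0)).toList
  have hl : ∀ b, b ∈ l ↔ ∀ g ∈ X, g b = 0 := by
    intro b
    simp [l]
  have h1 : l.foldl (fun B u => W622.ETC.res B (ann u)) A = W622.ETC.res A X := by
    ext ω
    rw [mem_list l A hA ω]
    constructor
    · rintro ⟨h1, h2⟩
      refine ⟨h1, fun y => mem_of_coann fun b hb => ?_⟩
      rw [(hA ω h1).symm, h2 b ((hl b).2 hb)]
      rfl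
    · rintro ⟨h1, h2⟩
      refine ⟨h1, fun u hu => ?_⟩
      ext y
      rw [(hA ω h1).symm]
      exact (hl u).1 hu _ (h2 y)
  rw [← h1]
  exact linked_list' l A A' H hA hL hH

/-- flags of linked families -/
inductive Fl : Fam V → Prop
  | bot : Fl ⊥
  | step (A A' : Fam V) : Linked A → Hyp A A' → Fl A' → Fl A

theorem hered_bot : Hered (⊥ : Fam V) := by
  intro X ω hω η hη a c _
  have h1 : ω = 0 := (Submodule.mem_bot (ZMod 2)).1 hω.1
  refine ⟨0, Submodule.zero_mem _, ?_, ?_⟩ <;> rw [h1] <;> rfl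

theorem Fl.hered [Finite V] (h : Fl A) : EFam e A → Hered A := by
  induction h with
  | bot => intro _; exact hered_bot
  | step A A' hL H _ ih => intro hA; exact H.hered hA hL (ih (H.efam hA))

end

/-! ### families of elementary type are linked -/

section
variable {V : Type} [AddCommGroup V] [Module (ZMod 2) V] {e : V} {A B : Fam V}

theorem mem_span_one {f g : Frm V} (h : g ∈ (Submodule.span (ZMod 2) {f} : Fam V)) :
    g = 0 ∨ g = f := by
  obtain ⟨c, rfl⟩ := Submodule.mem_span_singleton.1 h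
  rcases z01 c with rfl | rfl
  · left; exact zero_smul _ _
  · right; exact one_smul _ _

theorem linked_span (ω : Frm V) : Linked (Submodule.span (ZMod 2) {ω} : Fam V) := by
  intro α hα η hη a c h
  rcases mem_span_one hα with h1 | h1
  · exact ⟨0, Submodule.zero_mem _, by rw [h1], by rw [h1]; rfl⟩
  · rcases mem_span_one hη with h2 | h2
    · exact ⟨0, Submodule.zero_mem _, by rw [h, h2]; rfl, by rw [h, h2]⟩
    · exact ⟨α, hα, rfl, by rw [h, h1, h2]⟩

theorem linked_sup (hA : Linked A) (hB : Linked B) (hd : Disjoint (supp A) (supp B)) :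
    Linked (A ⊔ B) := by
  intro ω hω η hη a c h
  obtain ⟨α, hα, β, hβ, rfl⟩ := Submodule.mem_sup.1 hω
  obtain ⟨α', hα', β', hβ', rfl⟩ := Submodule.mem_sup.1 hη
  have h1 : α a + α' c = β a + β' c := by
    rw [LinearMap.add_apply, LinearMap.add_apply] at h
    have h2 : α a + α' c + (β a + β' c) = (α a + β a) + (α' c + β' c) := by abel
    have h3 : α a + α' c + (β a + β' c) = 0 := by rw [h2, h, vadd]
    exact aez.1 h3
  have h2 : α a + α' c ∈ supp A :=
    (supp A).add_mem (sp_le_supp hα ⟨a, rfl⟩) (sp_le_supp hα' ⟨c, rfl⟩)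
  have h3 : α a + α' c ∈ supp B := by
    rw [h1]
    exact (supp B).add_mem (sp_le_supp hβ ⟨a, rfl⟩) (sp_le_supp hβ' ⟨c, rfl⟩)
  have h4 : α a + α' c = 0 := Submodule.disjoint_def.1 hd _ h2 h3
  rw [h4] at h1
  obtain ⟨ζ, hζ, e1, e2⟩ := hA α hα α' hα' a c (aez.1 h4)
  obtain ⟨ξ, hξ, e3, e4⟩ := hB β hβ β' hβ' a c (aez.1 h1.symm)
  refine ⟨ζ + ξ, Submodule.add_mem_sup hζ hξ, ?_, ?_⟩
  · rw [LinearMap.add_apply, e1, e3]; rfl
  · rw [LinearMap.add_apply, e2, e4]; rfl

/-- decomposition of values in a cone -/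
theorem cone_split {p : Dl V} {Y : DSub V} (hp : p ∉ Y) {y y' : Dl V} (hy : y ∈ Y) (hy' : y' ∈ Y)
    {s s' : ZMod 2} (h : y + s • p = y' + s' • p) : y = y' ∧ s = s' := by
  have h1 : y + y' = (s + s') • p := by
    have h2 : y + y' + (s + s') • p = 0 := by
      rw [add_smul]
      have : y + y' + (s • p + s' • p) = (y + s • p) + (y' + s' • p) := by abel
      rw [this, h, vadd]
    exact aez.1 h2
  rcases z01 (s + s') with h2 | h2
  · rw [h2, zero_smul] at h1
    exact ⟨aez.1 h1, Pool.Agent.W622.ETC.add_eq_zero'.1 h2⟩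
  · rw [h2, one_smul] at h1
    exact absurd (h1 ▸ Y.add_mem hy hy') hp

theorem exists_g {Y : DSub V} {g g' : Dl V} (hg : g ∈ Y) (hg' : g' ∈ Y) {a c : V}
    (h : g a = g' c) : ∃ k ∈ Y, k a = g a ∧ k c = g a := by
  rcases z01 (g a) with h0 | h0
  · exact ⟨0, Y.zero_mem, h0.symm, h0.symm⟩
  rcases z01 (g c) with h1 | h1
  · rcases z01 (g' a) with h2 | h2
    · refine ⟨g + g', Y.add_mem hg hg', ?_, ?_⟩
      · rw [LinearMap.add_apply, h2, add_zero]
      · rw [LinearMap.add_apply, h1, zero_add, h]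
    · exact ⟨g', hg', by rw [h2, h0], h.symm⟩
  · exact ⟨g, hg, rfl, by rw [h1, h0]⟩

theorem cone_val (α : Frm V) (p g : Dl V) (a : V) :
    (α + wd e p g) a = (α a + p a • g) + (g a + g e * p a) • p := by
  ext b
  rw [LinearMap.add_apply, LinearMap.add_apply, wd_apply']
  simp only [LinearMap.add_apply, LinearMap.smul_apply, smul_eq_mul]
  ring

theorem linked_cone (hEF : EFam e A) (hA : Linked A) {p : Dl V} {Y : DSub V} (hs : supp A ≤ Y)
    (hp : p ∉ Y) : Linked (A ⊔ Submodule.map (wd e p) Y) := by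
  -- one-sided mixed case
  have mixed : ∀ α ∈ A, ∀ α' ∈ A, ∀ g ∈ Y, ∀ g' ∈ Y, ∀ a c : V, p a = 1 → p c = 0 →
      α a + g = α' c → g a + g e = g' c →
      ∃ ζ ∈ A ⊔ Submodule.map (wd e p) Y, ζ a = (α + wd e p g) a ∧ ζ c = (α + wd e p g) a := by
    intro α hα α' hα' g hg g' hg' a c ha hc h1 h2
    set y := α' c with hy
    have hge : g = y + α a := by
      rw [← h1, add_comm, ← add_assoc, vadd, zero_add]
    have ht : g a + g e = y a + y e := by
      rw [hge, LinearMap.add_apply, LinearMap.add_apply, (hEF α hα).sq a]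
      have : y a + α a e + (y e + α a e) = y a + y e + (α a e + α a e) := by ring
      rw [this, zadd, add_zero]
    have hY' : α' (a + c) ∈ Y := hs (sp_le_supp hα' ⟨_, rfl⟩)
    refine ⟨α' + wd e p (α' (a + c)), Submodule.add_mem_sup hα' ⟨_, hY', rfl⟩, ?_, ?_⟩
    · rw [cone_val, cone_val, ha, one_smul, one_smul, mul_one, mul_one, h1, ht]
      congr 1
      · rw [map_add, ← add_assoc, vadd, zero_add]
      · congr 1
        rw [map_add, LinearMap.add_apply, LinearMap.add_apply, (hEF α' hα').sq a]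
        have : α' a e + α' c a + (α' a e + α' c e) = α' c a + α' c e + (α' a e + α' a e) := by ring
        rw [this, zadd, add_zero]
    · rw [cone_val, cone_val, ha, hc, zero_smul, add_zero, one_smul, mul_zero, mul_one, add_zero,
        h1, ht]
      congr 2
      rw [map_add, LinearMap.add_apply, (hEF α' hα').sq c, (hEF α' hα').symm a c]
  intro ω hω η hη a c h
  obtain ⟨α, hα, _, ⟨g, hg, rfl⟩, rfl⟩ := Submodule.mem_sup.1 hω
  obtain ⟨α', hα', _, ⟨g', hg', rfl⟩, rfl⟩ := Submodule.mem_sup.1 hη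
  have hα1 : ∀ x, α x ∈ Y := fun x => hs (sp_le_supp hα ⟨x, rfl⟩)
  have hα1' : ∀ x, α' x ∈ Y := fun x => hs (sp_le_supp hα' ⟨x, rfl⟩)
  have h' := h
  rw [cone_val, cone_val] at h'
  obtain ⟨h1, h2⟩ := cone_split hp (Y.add_mem (hα1 a) (Y.smul_mem _ hg))
    (Y.add_mem (hα1' c) (Y.smul_mem _ hg')) h'
  rcases z01 (p a) with ha | ha <;> rcases z01 (p c) with hc | hc
  · rw [ha, hc, zero_smul, zero_smul, add_zero, add_zero] at h1
    rw [ha, hc, mul_zero, mul_zero, add_zero, add_zero] at h2
    obtain ⟨ζ, hζ, e1, e2⟩ := hA α hα α' hα' a c h1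
    obtain ⟨k, hk, e3, e4⟩ := exists_g hg hg' h2
    refine ⟨ζ + wd e p k, Submodule.add_mem_sup hζ ⟨k, hk, rfl⟩, ?_, ?_⟩
    · rw [cone_val, cone_val, ha, e1, e3, zero_smul, zero_smul, mul_zero, mul_zero]
    · rw [cone_val, cone_val, ha, hc, e2, e4, zero_smul, zero_smul, mul_zero, mul_zero]
  · rw [ha, hc, zero_smul, add_zero, one_smul] at h1
    rw [ha, hc, mul_zero, add_zero, mul_one] at h2
    obtain ⟨ζ, hζ, e1, e2⟩ := mixed α' hα' α hα g' hg' g hg c a hc ha h1.symm h2.symm
    exact ⟨ζ, hζ, by rw [e2, h], by rw [e1, h]⟩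
  · rw [ha, hc, zero_smul, add_zero, one_smul] at h1
    rw [ha, hc, mul_zero, add_zero, mul_one] at h2
    exact mixed α hα α' hα' g hg g' hg' a c ha hc h1 h2
  · rw [ha, hc, one_smul, one_smul] at h1
    rw [ha, hc, mul_one, mul_one] at h2
    have key : ∀ α ∈ A, ∀ (y g : Dl V) (a : V), y = α a + g → g a + g e = y a + y e := by
      intro α hα y g a hy
      have hge : g = y + α a := by
        rw [hy, add_comm, ← add_assoc, vadd, zero_add]
      rw [hge, LinearMap.add_apply, LinearMap.add_apply, (hEF α hα).sq a]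
      have : y a + α a e + (y e + α a e) = y a + y e + (α a e + α a e) := by ring
      rw [this, zadd, add_zero]
    obtain ⟨y, hy⟩ : ∃ y, y = α a + g := ⟨_, rfl⟩
    have ht := key α hα y g a hy
    have ht' := key α' hα' y g' c (hy.trans h1)
    rw [← hy] at h1
    have hyY : y ∈ Y := by
      rw [hy]
      exact Y.add_mem (hα1 a) hg
    refine ⟨0 + wd e p y, Submodule.add_mem_sup A.zero_mem ⟨y, hyY, rfl⟩, ?_, ?_⟩
    · rw [cone_val, cone_val, ha, one_smul, one_smul, mul_one, mul_one, ht, ← hy,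
        LinearMap.zero_apply, zero_add]
    · rw [cone_val, cone_val, ha, hc, one_smul, one_smul, mul_one, mul_one, h2, ht', ← hy,
        LinearMap.zero_apply, zero_add]

theorem el_efam (h : El e A) : EFam e A := by
  induction h with
  | zero =>
    intro ω hω
    rw [(Submodule.mem_bot (ZMod 2)).1 hω]
    exact EF.zero
  | loc ω hω =>
    intro η hη
    rcases mem_span_one hη with rfl | rfl
    · exact EF.zero
    · exact hω
  | prod A B _ _ _ ihA ihB =>
    intro ω hω
    obtain ⟨α, hα, β, hβ, rfl⟩ := Submodule.mem_sup.1 hω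
    exact (ihA α hα).add (ihB β hβ)
  | cone A p Y _ _ _ hpe ih =>
    intro ω hω
    obtain ⟨α, hα, _, ⟨g, hg, rfl⟩, rfl⟩ := Submodule.mem_sup.1 hω
    exact (ih α hα).add (wd_ef hpe g)

theorem el_linked (h : El e A) : Linked A := by
  induction h with
  | zero => exact hered_bot.linked
  | loc ω _ => exact linked_span ω
  | prod A B _ _ hd ihA ihB => exact linked_sup ihA ihB hd
  | cone A p Y hA hs hp _ ih => exact linked_cone (el_efam hA) ih hs hp

theorem Hyp.sup {A A' : Fam V} (H : Hyp A A') (B : Fam V) : Hyp (A ⊔ B) (A' ⊔ B) where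
  le := sup_le_sup_right H.le B
  idx := by
    intro ω hω η hη h1 h2
    obtain ⟨α, hα, β, hβ, rfl⟩ := Submodule.mem_sup.1 hω
    obtain ⟨α', hα', β', hβ', rfl⟩ := Submodule.mem_sup.1 hη
    have h3 : α ∉ A' := fun h => h1 (Submodule.add_mem_sup h hβ)
    have h4 : α' ∉ A' := fun h => h2 (Submodule.add_mem_sup h hβ')
    have h5 : α + β + (α' + β') = (α + α') + (β + β') := by abel
    rw [h5]
    exact Submodule.add_mem_sup (H.idx α hα α' hα' h3 h4) (B.add_mem hβ hβ')

/-- the members of `A` which vanish at `(a, b)` -/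
def sk (A : Fam V) (a b : V) : Fam V where
  carrier := {ω | ω ∈ A ∧ ω a b = 0}
  add_mem' := fun {_ _} hx hy => ⟨A.add_mem hx.1 hy.1, by
    rw [LinearMap.add_apply, LinearMap.add_apply, hx.2, hy.2, add_zero]⟩
  zero_mem' := ⟨A.zero_mem, rfl⟩
  smul_mem' := fun c _ hx => ⟨A.smul_mem c hx.1, by
    rw [LinearMap.smul_apply, LinearMap.smul_apply, hx.2, smul_zero]⟩

theorem mem_sk {A : Fam V} {a b : V} {ω : Frm V} : ω ∈ sk A a b ↔ ω ∈ A ∧ ω a b = 0 := Iff.rfl

theorem sk_hyp (A : Fam V) (a b : V) : Hyp A (sk A a b) where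
  le := fun _ h => h.1
  idx := by
    intro ω hω η hη h1 h2
    refine ⟨A.add_mem hω hη, ?_⟩
    have h3 : ω a b = 1 := z_ne fun h => h1 ⟨hω, h⟩
    have h4 : η a b = 1 := z_ne fun h => h2 ⟨hη, h⟩
    rw [LinearMap.add_apply, LinearMap.add_apply, h3, h4]
    exact zadd 1

/-- flags of linked families, each cut out of the previous one by a pair of vectors -/
inductive Sl : Fam V → Prop
  | bot : Sl ⊥
  | step (A : Fam V) (a b : V) : Linked A → Sl (sk A a b) → Sl A

theorem Sl.fl (h : Sl A) : Fl A := by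
  induction h with
  | bot => exact Fl.bot
  | step A a b hL _ ih => exact Fl.step A _ hL (sk_hyp A a b) ih

/-- a nonzero family `A` of elementary type has a proper subfamily of elementary type
`{ω ∈ A | ω(a,b) = 0}` -/
theorem el_sk [Finite V] (h : El e A) : A = ⊥ ∨ ∃ a b : V, (∃ ω ∈ A, ω a b ≠ 0) ∧
    El e (sk A a b) := by
  induction h with
  | zero => exact Or.inl rfl
  | loc ω hω =>
    by_cases h0 : ω = 0
    · left; rw [h0]; exact Submodule.span_zero_singleton _
    · right
      obtain ⟨a, b, hab⟩ : ∃ a b : V, ω a b ≠ 0 := by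
        by_contra hcon
        push Not at hcon
        exact h0 (LinearMap.ext fun a => LinearMap.ext fun b => hcon a b)
      refine ⟨a, b, ⟨ω, Submodule.mem_span_singleton_self ω, hab⟩, ?_⟩
      have h1 : sk (Submodule.span (ZMod 2) {ω}) a b = ⊥ := by
        rw [eq_bot_iff]
        rintro η ⟨hη, h2⟩
        rcases mem_span_one hη with h3 | h3
        · exact (Submodule.mem_bot _).2 h3
        · rw [h3] at h2
          exact absurd h2 hab
      rw [h1]
      exact El.zero
  | prod A B hA hB hd ihA ihB =>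
    rcases ihA with h0 | ⟨a, b, ⟨ω, hω, hab⟩, hE⟩
    · rw [h0, bot_sup_eq]
      exact ihB
    · right
      obtain ⟨a', ha1, ha2⟩ := exists_glue hd a 0
      have hα : ∀ α ∈ A, α a' b = α a b := by
        intro α hα
        rw [(el_efam hA α hα).symm, ha1 _ (sp_le_supp hα ⟨b, rfl⟩), (el_efam hA α hα).symm]
      have hβ : ∀ β ∈ B, β a' b = 0 := by
        intro β hβ
        rw [(el_efam hB β hβ).symm, ha2 _ (sp_le_supp hβ ⟨b, rfl⟩), map_zero]
      refine ⟨a', b, ⟨ω, Submodule.mem_sup_left hω, by rw [hα ω hω]; exact hab⟩, ?_⟩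
      have h1 : sk (A ⊔ B) a' b = sk A a b ⊔ B := by
        apply le_antisymm
        · rintro η ⟨hη, h2⟩
          obtain ⟨α, hα', β, hβ', rfl⟩ := Submodule.mem_sup.1 hη
          refine Submodule.add_mem_sup ⟨hα', ?_⟩ hβ'
          rw [LinearMap.add_apply, LinearMap.add_apply, hα α hα', hβ β hβ', add_zero] at h2
          exact h2
        · refine sup_le ?_ ?_
          · rintro α ⟨hα', h2⟩
            exact ⟨Submodule.mem_sup_left hα', by rw [hα α hα', h2]⟩
          · intro β hβ'
            exact ⟨Submodule.mem_sup_right hβ', hβ β hβ'⟩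
      rw [h1]
      exact El.prod _ B hE hB (hd.mono_left (supp_mono (sk_hyp A a b).le))
  | cone A p Y hA hs hp hpe ih =>
    have hdis : Disjoint Y (Submodule.span (ZMod 2) {p}) := by
      rw [Submodule.disjoint_def]
      intro y hy h1
      rcases span_one_mem.1 h1 with h2 | h2
      · exact h2
      · rw [h2] at hy; exact absurd hy hp
    have hpp : p ∈ Submodule.span (ZMod 2) {p} := Submodule.mem_span_singleton_self p
    rcases ih with h0 | ⟨a, b, ⟨ω, hω, hab⟩, hE⟩
    · rw [h0, bot_sup_eq]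
      by_cases hY : Y = ⊥
      · left; rw [hY, Submodule.map_bot]
      right
      obtain ⟨f, hf, hf0⟩ := Submodule.exists_mem_ne_zero_of_ne_bot hY
      obtain ⟨b, hb⟩ : ∃ b : V, f b ≠ 0 := by
        by_contra hcon
        push Not at hcon
        exact hf0 (LinearMap.ext hcon)
      obtain ⟨x0, hx0⟩ : ∃ x : V, p x = 1 := by
        by_contra hcon
        push Not at hcon
        exact hp (by
          have : p = 0 := LinearMap.ext fun a => z_ne' (hcon a)
          rw [this]; exact Y.zero_mem)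
      obtain ⟨x, hx1, hx2⟩ := exists_glue hdis 0 x0
      obtain ⟨b', hb1, hb2⟩ := exists_glue hdis b 0
      have hv : ∀ g ∈ Y, wd e p g x b' = g b := by
        intro g hg
        have e1 : g x = 0 := by rw [hx1 g hg, map_zero]
        have e2 : p b' = 0 := by rw [hb2 p hpp, map_zero]
        have e3 : p x = 1 := by rw [hx2 p hpp, hx0]
        rw [wd_apply', e1, e2, e3, hb1 g hg]
        ring
      refine ⟨x, b', ⟨wd e p f, ⟨f, hf, rfl⟩, by rw [hv f hf]; exact hb⟩, ?_⟩
      have hcone : El e (⊥ ⊔ Submodule.map (wd e p) (Y ⊓ ann b)) :=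
        El.cone ⊥ p (Y ⊓ ann b) El.zero
          (supp_le.2 fun ω hω a => by
            rw [(Submodule.mem_bot (ZMod 2)).1 hω]
            exact Submodule.zero_mem _) (fun h => hp h.1) hpe
      rw [bot_sup_eq] at hcone
      have h1 : sk (Submodule.map (wd e p) Y) x b' = Submodule.map (wd e p) (Y ⊓ ann b) := by
        ext η
        constructor
        · rintro ⟨⟨g, hg, rfl⟩, h2⟩
          rw [hv g hg] at h2
          exact ⟨g, ⟨hg, h2⟩, rfl⟩
        · rintro ⟨g, ⟨hg, h2⟩, rfl⟩
          exact ⟨⟨g, hg, rfl⟩, by rw [hv g hg]; exact h2⟩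
      rw [h1]
      exact hcone
    · right
      obtain ⟨a', ha1, ha2⟩ := exists_glue hdis a 0
      obtain ⟨b', hb1, hb2⟩ := exists_glue hdis b 0
      have hα : ∀ α ∈ A, α a' b' = α a b := by
        intro α hα
        rw [hb1 _ (hs (sp_le_supp hα ⟨a', rfl⟩)), (el_efam hA α hα).symm,
          ha1 _ (hs (sp_le_supp hα ⟨b, rfl⟩)), (el_efam hA α hα).symm]
      have hβ : ∀ β ∈ Submodule.map (wd e p) Y, β a' b' = 0 := by
        rintro _ ⟨g, hg, rfl⟩
        have e1 : p a' = 0 := by rw [ha2 p hpp, map_zero]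
        have e2 : p b' = 0 := by rw [hb2 p hpp, map_zero]
        rw [wd_apply', e1, e2]
        ring
      refine ⟨a', b', ⟨ω, Submodule.mem_sup_left hω, by rw [hα ω hω]; exact hab⟩, ?_⟩
      have h1 : sk (A ⊔ Submodule.map (wd e p) Y) a' b' =
          sk A a b ⊔ Submodule.map (wd e p) Y := by
        apply le_antisymm
        · rintro η ⟨hη, h2⟩
          obtain ⟨α, hα', β, hβ', rfl⟩ := Submodule.mem_sup.1 hη
          refine Submodule.add_mem_sup ⟨hα', ?_⟩ hβ'
          rw [LinearMap.add_apply, LinearMap.add_apply, hα α hα', hβ β hβ', add_zero] at h2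
          exact h2
        · refine sup_le ?_ ?_
          · rintro α ⟨hα', h2⟩
            exact ⟨Submodule.mem_sup_left hα', by rw [hα α hα', h2]⟩
          · intro β hβ'
            exact ⟨Submodule.mem_sup_right hβ', hβ β hβ'⟩
      rw [h1]
      exact El.cone _ p Y hE ((supp_mono (sk_hyp A a b).le).trans hs) hp hpe

theorem el_sl [Finite V] : ∀ (n : ℕ) (A : Fam V), (A : Set (Frm V)).ncard = n → El e A → Sl A := by
  intro n
  induction n using Nat.strong_induction_on with
  | _ n ih =>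
    intro A hn hE
    rcases el_sk hE with rfl | ⟨a, b, ⟨ω, hω, hab⟩, hE'⟩
    · exact Sl.bot
    · have hlt : sk A a b < A := by
        refine lt_of_le_of_ne (fun _ h => h.1) fun h => ?_
        have h1 : ω ∈ sk A a b := by rw [h]; exact hω
        exact hab h1.2
      have h1 : (sk A a b : Set (Frm V)).ncard < n := by
        rw [← hn]
        exact Set.ncard_lt_ncard (SetLike.coe_ssubset_coe.2 hlt) (Set.toFinite _)
      exact Sl.step A a b (el_linked hE) (ih _ h1 _ rfl hE')

end

end Pool.Agent.H89FL
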