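import Pool.Agent.H89FL.Chain
import Pool.Agent.TH188.ET.FieldSmall

set_option autoImplicit false
set_option linter.unusedSectionVars false

/-! Fields which are linked modulo subgroups of `K_2(F)/2`. -/

namespace Pool.Agent.H89FL

open Pool.Agent.H315R3.ETC Pool.Agent.TH188.ET Pool.Agent.W622.ETG

universe u

/-- `F` is linked modulo `C`: if `{a,b} ≡ {c,d}` modulo `C`, there is `x` with
`{a,b} ≡ {a,x}` and `{c,d} ≡ {c,x}` modulo `C` -/
def LinkedMod (F : Type*) [Field F] (C : AddSubgroup (K2 F)) : Prop :=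
  ∀ a b c d : Fˣ, sy a b - sy c d ∈ C → ∃ x : Fˣ, sy a b - sy a x ∈ C ∧ sy c d - sy c x ∈ C

/-- a chain `0 = C₀ ≤ … ≤ C_k` of subgroups of `K_2(F)/2`, each of index at most two in the next,
such that `F` is linked modulo each of them -/
structure LinkedChain (F : Type*) [Field F] (k : ℕ) (C : ℕ → AddSubgroup (K2 F)) : Prop where
  zero : C 0 = ⊥
  index : ∀ i < k, C i ≤ C (i + 1) ∧
    ∀ u ∈ C (i + 1), ∀ v ∈ C (i + 1), u ∈ C i ∨ v ∈ C i ∨ u + v ∈ C i
  linked : ∀ i ≤ k, LinkedMod F (C i)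

/-- a chain `0 = C₀ ≤ … ≤ C_k` of subgroups of `K_2(F)/2`, each generated by the previous one and
a symbol, such that `F` is linked modulo each of them -/
structure SymbolChain (F : Type*) [Field F] (k : ℕ) (C : ℕ → AddSubgroup (K2 F)) : Prop where
  zero : C 0 = ⊥
  next : ∀ i < k, ∃ a b : Fˣ, C (i + 1) = C i ⊔ AddSubgroup.zmultiples (sy a b)
  linked : ∀ i ≤ k, LinkedMod F (C i)

/-- `C` is generated by symbols -/
def SymbolGenerated (F : Type*) [Field F] (C : AddSubgroup (K2 F)) : Prop :=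
  C ≤ AddSubgroup.closure {t | t ∈ C ∧ ∃ a b : Fˣ, t = sy a b}

/-- `t` is good modulo `C`: if `t ≡ {a,x} + {c,y}` modulo `C`, then `t ≡ {p,z}` modulo `C` for some
`z` and some `p ∈ {a, c, ac}` -/
def Good (F : Type*) [Field F] (C : AddSubgroup (K2 F)) (t : K2 F) : Prop :=
  ∀ a c x y : Fˣ, t - (sy a x + sy c y) ∈ C →
    ∃ z : Fˣ, t - sy a z ∈ C ∨ t - sy c z ∈ C ∨ t - sy (a * c) z ∈ C

/-- `S` is the quaternionic structure of `F` modulo `C`: `G = F*/F*²`, the distinguished element is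
the class of `-1`, and `q(a,b) = q(c,d)` iff `{a,b} ≡ {c,d}` modulo `C` -/
def IsStructureMod (F : Type*) [Field F] (C : AddSubgroup (K2 F)) (S : QData) : Prop :=
  ∃ φ : Fˣ →* S.G, Function.Surjective φ ∧ (∀ a : Fˣ, φ a = 1 ↔ ∃ b : Fˣ, a = b ^ 2) ∧
    φ (-1) = S.neg ∧ S.q 1 1 = S.zero ∧
    ∀ a b c d : Fˣ, S.q (φ a) (φ b) = S.q (φ c) (φ d) ↔ sy a b - sy c d ∈ C

/-- `F` is of elementary type modulo `C` -/
def ElementaryMod (F : Type*) [Field F] (C : AddSubgroup (K2 F)) : Prop :=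
  ∃ S : QData, Elem S ∧ IsStructureMod F C S

section
variable {F : Type u} [Field F]

theorem sub_eq (x y : K2 F) : x - y = x + y := by
  rw [sub_eq_add_neg, neg_eq_iff_add_eq_zero.2 (K2_add_self y)]

theorem sy_eq_iff (h2 : (2 : F) ≠ 0) (a b c d : Fˣ) : sy a b = sy c d ↔ QIso a b c d := by
  constructor
  · intro h
    obtain ⟨f, hf⟩ := Pool.Agent.TH188.ETF.exists_res (F := F) h2
    rw [← Pool.Agent.TH188.ETF.bq_eq_iff h2, ← hf, ← hf, h]
  · intro h
    obtain ⟨x, h1, h3⟩ := qiso_slot h2 h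
    have add : ∀ {a b c : Fˣ}, QIso a b a c → sy a b = sy a c := by
      intro a b c h
      have h4 : sy a (b * c) = 0 := sy_of_norm _ _ ((qiso_iff h2 a b c).1 h)
      rw [sy_mul_right] at h4
      have h5 := K2_add_self (sy a c)
      rw [← h5] at h4
      exact add_right_cancel h4
    have h4 : QIso x a x c :=
      (qiso_symm h2 x a).trans ((h1.symm.trans (h.trans h3)).trans (qiso_symm h2 c x))
    have swap : ∀ a b : Fˣ, sy a b = sy b a := by
      intro a b
      have e1 := sy_neg_self (a * b)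
      have e2 := sy_neg_self a
      have e3 := sy_neg_self b
      have e4 : -(a * b) = -a * b := by rw [neg_mul]
      rw [e4, sy_mul_left, sy_mul_right, sy_mul_right, e2, zero_add] at e1
      have e6 : sy b (-a) + sy b b = sy b a := by
        have : (-a) * b = a * (-b) := by rw [neg_mul, mul_neg]
        rw [← sy_mul_right, this, sy_mul_right, e3, add_zero]
      rw [e6] at e1
      have h5 := K2_add_self (sy b a)
      rw [← h5] at e1
      exact add_right_cancel e1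
    rw [add h1, add h3, swap a x, swap c x]
    exact add h4

theorem sys (h2 : (2 : F) ≠ 0) {S : QData} (hS : IsQuat S) (hfin : Finite S.G)
    (φ : Fˣ →* S.G) (hk : ∀ a : Fˣ, φ a = 1 ↔ ∃ b : Fˣ, a = b ^ 2)
    (hq : ∀ a b c d : Fˣ, S.q (φ a) (φ b) = S.q (φ c) (φ d) ↔ QIso a b c d)
    (h0 : S.q 1 1 = S.zero) (r : S.G → Fˣ) (hr : ∀ g, φ (r g) = g) :
    Sys S (fun g h => sy (F := F) (r g) (r h)) ∧
      ∀ a b : Fˣ, sy (F := F) (r (φ a)) (r (φ b)) = sy a b := by
  have hinv : ∀ a b a' b' : Fˣ, φ a = φ a' → φ b = φ b' → sy (F := F) a b = sy a' b' := by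
    intro a b a' b' h1 h3
    rw [sy_eq_iff h2]
    exact qiso_of_phi h2 hk h1 h3
  refine ⟨⟨hS, hfin, K2_add_self, ?_, ?_, ?_, ?_⟩, fun a b => hinv _ _ _ _ (hr _) (hr _)⟩
  · intro g h k
    show sy (F := F) (r g) (r (h * k)) = sy (r g) (r h) + sy (r g) (r k)
    rw [← sy_mul_right]
    apply hinv _ _ _ _ rfl
    rw [map_mul, hr, hr, hr]
  · intro g h k l
    show sy (F := F) (r g) (r h) = sy (r k) (r l) ↔ _
    rw [sy_eq_iff h2]
    have := hq (r g) (r h) (r k) (r l)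
    rw [hr, hr, hr, hr] at this
    exact this.symm
  · intro χ hl hr' hz
    obtain ⟨f, hf⟩ := exists_hom (F := F) (fun a b => χ (φ a) (φ b))
      (fun a b c => by rw [map_mul]; exact hl _ _ _) (fun a b c => by rw [map_mul]; exact hr' _ _ _)
      (fun a c h => by
        refine hz _ _ ?_
        rw [← h0]
        have h1 := (hq a c 1 1).2 ((qiso_one h2 a c).2 h)
        rwa [map_one] at h1)
    refine ⟨f, fun g h => ?_⟩
    show f (sy (r g) (r h)) = χ g h
    rw [hf, hr, hr]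
  · intro l hl
    have h1 : ∀ a b : Fˣ, l (sy a b) = 0 := by
      intro a b
      rw [← hinv (r (φ a)) (r (φ b)) a b (hr _) (hr _)]
      exact hl _ _
    ext t
    show (l.comp (QuotientAddGroup.mk' _)) t = 0
    induction t using TensorProduct.induction_on with
    | zero => exact map_zero _
    | tmul a b => exact h1 a.toMul b.toMul
    | add x y hx hy => rw [map_add, hx, hy, add_zero]

/-- translation of linkage -/
theorem linkedMod_iff {S : QData} (φ : Fˣ →* S.G) (r : S.G → Fˣ) (hr : ∀ g, φ (r g) = g)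
    (hφ : ∀ a b : Fˣ, sy (F := F) (r (φ a)) (r (φ b)) = sy a b) (C : AddSubgroup (K2 F)) :
    LinkedMod F C ↔ LinkedG (fun g h => sy (F := F) (r g) (r h)) C := by
  constructor
  · intro h a b c d hab
    obtain ⟨x, h1, h2⟩ := h (r a) (r b) (r c) (r d) (by rw [sub_eq]; exact hab)
    refine ⟨φ x, ?_, ?_⟩
    · show sy (r a) (r b) + sy (r a) (r (φ x)) ∈ C
      rw [← hr a, hφ, hr, ← sub_eq]
      exact h1
    · show sy (r c) (r d) + sy (r c) (r (φ x)) ∈ C
      rw [← hr c, hφ, hr, ← sub_eq]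
      exact h2
  · intro h a b c d hab
    rw [sub_eq, ← hφ a b, ← hφ c d] at hab
    obtain ⟨x, h1, h2⟩ := h _ _ _ _ hab
    have e : sy (F := F) (r (φ a)) (r x) = sy a (r x) := by rw [← hφ a (r x), hr]
    have e' : sy (F := F) (r (φ c)) (r x) = sy c (r x) := by rw [← hφ c (r x), hr]
    refine ⟨r x, ?_, ?_⟩
    · rw [sub_eq, ← hφ a b, ← e]
      exact h1
    · rw [sub_eq, ← hφ c d, ← e']
      exact h2

theorem good_iff {S : QData} (φ : Fˣ →* S.G) (r : S.G → Fˣ) (hr : ∀ g, φ (r g) = g)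
    (hφ : ∀ a b : Fˣ, sy (F := F) (r (φ a)) (r (φ b)) = sy a b) (C : AddSubgroup (K2 F))
    (t : K2 F) : Good F C t ↔ GoodG (fun g h => sy (F := F) (r g) (r h)) C t := by
  constructor
  · intro h a c x y hxy
    obtain ⟨z, h1⟩ := h (r a) (r c) (r x) (r y) (by rw [sub_eq]; exact hxy)
    have e1 : ∀ g : S.G, sy (F := F) (r g) (r (φ z)) = sy (r g) z := by
      intro g
      rw [← hφ (r g) z, hr]
    have e2 : sy (F := F) (r (a * c)) z = sy (r a * r c) z := by
      rw [← hφ (r (a * c)) z, ← hφ (r a * r c) z, map_mul, hr, hr, hr]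
    refine ⟨φ z, ?_⟩
    show t + sy (r a) (r (φ z)) ∈ C ∨ t + sy (r c) (r (φ z)) ∈ C ∨
      t + sy (r (a * c)) (r (φ z)) ∈ C
    rw [e1, e1, e1, e2, ← sub_eq, ← sub_eq, ← sub_eq]
    exact h1
  · intro h a c x y hxy
    rw [sub_eq, ← hφ a x, ← hφ c y] at hxy
    obtain ⟨z, h1⟩ := h _ _ _ _ hxy
    have e1 : ∀ p : Fˣ, sy (F := F) (r (φ p)) (r z) = sy p (r z) := by
      intro p
      rw [← hφ p (r z), hr]
    rw [← map_mul] at h1
    have h2 : t + sy (r (φ a)) (r z) ∈ C ∨ t + sy (r (φ c)) (r z) ∈ C ∨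
      t + sy (r (φ (a * c))) (r z) ∈ C := h1
    rw [e1, e1, e1, ← sub_eq, ← sub_eq, ← sub_eq] at h2
    exact ⟨r z, h2⟩

/-- the structure modulo `C` is that of the family of `C` -/
theorem iso_mod {S : QData} [Module (ZMod 2) (Additive S.G)] (φ : Fˣ →* S.G)
    (hs : Function.Surjective φ) (hk : ∀ a : Fˣ, φ a = 1 ↔ ∃ b : Fˣ, a = b ^ 2)
    (hn : φ (-1) = S.neg) (r : S.G → Fˣ)
    (hφ : ∀ a b : Fˣ, sy (F := F) (r (φ a)) (r (φ b)) = sy a b)
    (H : Sys S (fun g h => sy (F := F) (r g) (r h))) {C : AddSubgroup (K2 F)} {T : QData}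
    (hT : IsStructureMod F C T) : Iso (QD (ee S) (fam H C)) T := by
  obtain ⟨ψ, hs', hk', hn', -, hq'⟩ := hT
  have hker : φ.ker = ψ.ker := by
    ext a
    rw [MonoidHom.mem_ker, MonoidHom.mem_ker, hk, hk']
  let e : S.G ≃* T.G := ((QuotientGroup.quotientKerEquivOfSurjective φ hs).symm.trans
    (QuotientGroup.quotientMulEquivOfEq hker)).trans
      (QuotientGroup.quotientKerEquivOfSurjective ψ hs')
  have he : ∀ a, e (φ a) = ψ a := by
    intro a
    have h1 : (QuotientGroup.quotientKerEquivOfSurjective φ hs).symm (φ a) =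
        (QuotientGroup.mk a : Fˣ ⧸ φ.ker) := by
      rw [MulEquiv.symm_apply_eq]
      rfl
    show (QuotientGroup.quotientKerEquivOfSurjective ψ hs')
      ((QuotientGroup.quotientMulEquivOfEq hker)
        ((QuotientGroup.quotientKerEquivOfSurjective φ hs).symm (φ a))) = ψ a
    rw [h1]
    rfl
  refine ⟨(MulEquiv.multiplicativeAdditive S.G).trans e, ?_, ?_⟩
  · show e S.neg = T.neg
    rw [← hn, ← hn', he]
  · intro g h k l
    refine Iff.trans (Pool.Agent.TH188.ET8.QD_eq _ _ _ _ _) ?_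
    show _ ↔ T.q (e g.toAdd.toMul) (e h.toAdd.toMul) = T.q (e k.toAdd.toMul) (e l.toAdd.toMul)
    obtain ⟨a, ha⟩ := hs g.toAdd.toMul
    obtain ⟨b, hb⟩ := hs h.toAdd.toMul
    obtain ⟨c, hc⟩ := hs k.toAdd.toMul
    obtain ⟨d, hd⟩ := hs l.toAdd.toMul
    rw [← ha, ← hb, ← hc, ← hd, he, he, he, he, hq', sub_eq]
    constructor
    · intro h1
      have h2 := mem_of_fam H (C := C) (a := g.toAdd.toMul) (b := h.toAdd.toMul)
        (c := k.toAdd.toMul) (d := l.toAdd.toMul) h1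
      rw [← ha, ← hb, ← hc, ← hd] at h2
      have h3 : sy (r (φ a)) (r (φ b)) + sy (r (φ c)) (r (φ d)) ∈ C := h2
      rwa [hφ, hφ] at h3
    · intro h1 ω hω
      have h3 : sy (r (φ a)) (r (φ b)) + sy (r (φ c)) (r (φ d)) ∈ C := by rwa [hφ, hφ]
      rw [ha, hb, hc, hd] at h3
      exact eq_of_mem H h3 hω

end

/-- the main theorem -/
theorem field_chains {F : Type*} [Field F] (h2 : (2 : F) ≠ 0) (hfin : FinSq F) :
    ((∃ S : QData, Elem S ∧ IsStructureOf F S) ↔
      ∃ (k : ℕ) (C : ℕ → AddSubgroup (K2 F)), SymbolChain F k C ∧ C k = ⊤) ∧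
    (∀ (k : ℕ) (C : ℕ → AddSubgroup (K2 F)) (u : Fˣ), LinkedChain F k C →
      (∀ a b : Fˣ, ∃ c : Fˣ, sy a b - sy u c ∈ C k) → ∃ S : QData, Elem S ∧ IsStructureOf F S) ∧
    (∀ (k : ℕ) (C : ℕ → AddSubgroup (K2 F)), LinkedChain F k C → SymbolGenerated F (C k) →
      ElementaryMod F (C k) → ∃ S : QData, Elem S ∧ IsStructureOf F S) ∧
    (∀ (C : AddSubgroup (K2 F)) (t : K2 F), LinkedMod F C →
      (Good F C t ↔ LinkedMod F (C ⊔ AddSubgroup.zmultiples t))) ∧
    ((¬ ∃ S : QData, Elem S ∧ IsStructureOf F S) → ∃ C : AddSubgroup (K2 F),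
      SymbolGenerated F C ∧ LinkedMod F C ∧ ¬ ElementaryMod F C ∧
      ∀ a b : Fˣ, sy a b ∉ C → ¬ Good F C (sy a b)) := by
  obtain ⟨S, hS, hSfin, hSq⟩ := exists_structure h2 hfin
  have hET : (∃ S : QData, Elem S ∧ IsStructureOf F S) ↔ Elem S := by
    constructor
    · rintro ⟨T, hT, hTF⟩
      exact Elem.iso T S hT (iso_of_structure hTF hS)
    · intro h
      exact ⟨S, h, hS⟩
  have hS' := hS
  obtain ⟨φ, hs, hk, hn, h0, hq⟩ := hS'
  have hs' := hs
  choose r hr using hs'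
  obtain ⟨H, hφ⟩ := sys h2 hSq hSfin φ hk hq h0 r hr
  let _ : Module (ZMod 2) (Additive S.G) := AddCommGroup.zmodModule (n := 2) (by
    intro x
    rw [two_smul]
    exact hSq.exp2 x.toMul)
  have hL := fun C => linkedMod_iff (F := F) φ r hr hφ C
  have hG := fun C t => good_iff (F := F) φ r hr hφ C t
  have hSG : ∀ C : AddSubgroup (K2 F), SymbolGenerated F C →
      SymG (fun g h => sy (F := F) (r g) (r h)) C := by
    intro C hC
    refine hC.trans (AddSubgroup.closure_mono ?_)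
    rintro t ⟨h1, a, b, rfl⟩
    exact ⟨h1, φ a, φ b, (hφ a b).symm⟩
  have hGS : ∀ C : AddSubgroup (K2 F), SymG (fun g h => sy (F := F) (r g) (r h)) C →
      SymbolGenerated F C := by
    intro C hC
    refine hC.trans (AddSubgroup.closure_mono ?_)
    rintro t ⟨h1, a, b, rfl⟩
    exact ⟨h1, r a, r b, rfl⟩
  have hchain : ∀ (k : ℕ) (C : ℕ → AddSubgroup (K2 F)), LinkedChain F k C →
      ChainG (fun g h => sy (F := F) (r g) (r h)) k C := by
    intro k C hC
    exact ⟨hC.zero, hC.index, fun i hi => (hL _).1 (hC.linked i hi)⟩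
  have hsymb : ∀ (k : ℕ) (C : ℕ → AddSubgroup (K2 F)), SymbolChain F k C → LinkedChain F k C := by
    intro k C hC
    refine ⟨hC.zero, fun i hi => ?_, hC.linked⟩
    obtain ⟨a, b, h⟩ := hC.next i hi
    rw [h]
    exact index_sup H (C i) (sy a b)
  have htwo : ∀ (k : ℕ) (C : ℕ → AddSubgroup (K2 F)) (u : Fˣ), LinkedChain F k C →
      (∀ a b : Fˣ, ∃ c : Fˣ, sy a b - sy u c ∈ C k) → Elem S := by
    intro k C u hC hu
    have hC' := hchain k C hC
    refine elem_of_hered H (hered_chain H hC' (hered_of_slot H (hC'.link k le_rfl) (φ u) ?_))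
    intro a b
    obtain ⟨c, hc⟩ := hu (r a) (r b)
    refine ⟨φ c, ?_⟩
    show sy (r a) (r b) + sy (r (φ u)) (r (φ c)) ∈ C k
    rw [hφ, ← sub_eq]
    exact hc
  refine ⟨?_, ?_, ?_, ?_, ?_⟩
  · rw [hET]
    constructor
    · intro h
      obtain ⟨k, C, h1, h3⟩ := chain_of_elem H h
      refine ⟨k, C, ⟨h1.zero, fun i hi => ?_, fun i hi => (hL _).2 (h1.link i hi)⟩, h3⟩
      obtain ⟨a, b, h⟩ := h1.next i hi
      exact ⟨r a, r b, h⟩
    · rintro ⟨k, C, h1, h3⟩
      refine htwo k C 1 (hsymb k C h1) fun a b => ⟨1, ?_⟩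
      rw [h3]
      exact AddSubgroup.mem_top _
  · intro k C u hC hu
    rw [hET]
    exact htwo k C u hC hu
  · rintro k C hC hsg ⟨T, hT, hTF⟩
    rw [hET]
    have hC' := hchain k C hC
    exact elem_of_hered H (hered_chain H hC' (hered_of_elem_fam H (hSG _ hsg)
      (hC'.link k le_rfl) (Elem.iso _ _ hT (iso_symm (iso_mod φ hs hk hn r hφ H hTF)))))
  · intro C t hC
    rw [hG]
    constructor
    · intro h
      exact (hL _).2 (linked_of_good H ((hL _).1 hC) h)
    · intro h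
      exact good_of_linked H ((hL _).1 h) (index_sup H C t)
  · intro hne
    rw [hET] at hne
    obtain ⟨C, h1, h3, h4, h5⟩ := exists_bad H hne
    refine ⟨C, hGS C h1, (hL _).2 h3, ?_, ?_⟩
    · rintro ⟨T, hT, hTF⟩
      exact h4 T (iso_mod φ hs hk hn r hφ H hTF) hT
    · intro a b hab hg
      rw [hG] at hg
      have h6 := h5 (φ a) (φ b)
      rw [hφ] at h6
      exact h6 hab hg

end Pool.Agent.H89FL
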