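import Pool.Agent.W622.ETG.Basic

set_option autoImplicit false
set_option linter.unusedSectionVars false

/-!
Linked families of forms with a linked subfamily of index two.
-/

namespace Pool.Agent.H89FL

open Module Pool.Agent.W622.ETG

universe u

section
variable {V : Type u} [AddCommGroup V] [Module (ZMod 2) V]

/-- members of `A` which kill `b` -/
def kil (A : Fam V) (b : V) : Fam V where
  carrier := {ω | ω ∈ A ∧ ω b = 0}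
  add_mem' := fun {_ _} hx hy => ⟨A.add_mem hx.1 hy.1, by
    rw [LinearMap.add_apply, hx.2, hy.2, add_zero]⟩
  zero_mem' := ⟨A.zero_mem, rfl⟩
  smul_mem' := fun c _ hx => ⟨A.smul_mem c hx.1, by
    rw [LinearMap.smul_apply, hx.2, smul_zero]⟩

theorem mem_kil {A : Fam V} {b : V} {ω : Frm V} : ω ∈ kil A b ↔ ω ∈ A ∧ ω b = 0 := Iff.rfl

/-- `A'` is a subfamily of index at most two of `A` -/
structure Hyp (A A' : Fam V) : Prop where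
  le : A' ≤ A
  idx : ∀ ω ∈ A, ∀ η ∈ A, ω ∉ A' → η ∉ A' → ω + η ∈ A'

theorem aez {M : Type*} [AddCommGroup M] [Module (ZMod 2) M] {v w : M} : v + w = 0 ↔ v = w :=
  Pool.Agent.W622.ETC.add_eq_zero'

variable {A A' : Fam V}

theorem Hyp.not_mem (_H : Hyp A A') {ω η : Frm V} (hω : ω ∈ A') (hη : η ∉ A') : ω + η ∉ A' := by
  intro h
  apply hη
  have h1 := A'.add_mem hω h
  have h2 : ω + ω = 0 := vadd ω
  rwa [← add_assoc, h2, zero_add] at h1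

/-- goodness -/
theorem Hyp.good (H : Hyp A A') (hA' : Linked A') (a c : V)
    (h : ∀ ω ∈ A, ω a = 0 → ω c = 0 → ω ∈ A') :
    (∀ ω ∈ A, ω a = 0 → ω ∈ A') ∨ (∀ ω ∈ A, ω c = 0 → ω ∈ A') ∨
      (∀ ω ∈ A, ω (a + c) = 0 → ω ∈ A') := by
  by_contra hcon
  push Not at hcon
  obtain ⟨⟨κ, hκ, hκ1, hκ2⟩, ⟨κ', hκ', hκ1', hκ2'⟩, ⟨ζ, hζ, hζ1, hζ2⟩⟩ := hcon
  have hac : ζ a = ζ c := by
    rw [map_add] at hζ1
    exact aez.1 hζ1
  have h1 : (ζ + κ) a = ζ a := by rw [LinearMap.add_apply, hκ1, add_zero]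
  have h2 : (ζ + κ') c = ζ c := by rw [LinearMap.add_apply, hκ1', add_zero]
  obtain ⟨ξ, hξ, h3, h4⟩ := hA' _ (H.idx ζ hζ κ hκ hζ2 hκ2) _ (H.idx ζ hζ κ' hκ' hζ2 hκ2') a c
    (by rw [h1, h2, hac])
  rw [h1] at h3 h4
  have h5 : ξ + ζ ∈ A' := by
    refine h _ (A.add_mem (H.le hξ) hζ) ?_ ?_
    · rw [LinearMap.add_apply, h3, vadd]
    · rw [LinearMap.add_apply, h4, hac, vadd]
  exact H.not_mem hξ hζ2 h5

/-- plane lemma -/
theorem plane {A' : Fam V} (hA' : Linked A') {a : V} (hd : Linked (kil A' a)) {b p : V}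
    {g : Dl V} (h1 : ∃ θ ∈ A', θ b = g) (h2 : ∃ θ ∈ A', θ (a + b) = g)
    (h3 : ∃ θ ∈ A', θ (b + p) = g) (h4 : ∃ θ ∈ A', θ (a + (b + p)) = g) :
    ∃ δ ∈ A', δ b = g ∧ δ a = 0 ∧ δ p = 0 := by
  obtain ⟨θ1, m1, e1⟩ := h1
  obtain ⟨θ2, m2, e2⟩ := h2
  obtain ⟨θ3, m3, e3⟩ := h3
  obtain ⟨θ4, m4, e4⟩ := h4
  obtain ⟨ω1, mω, f1, f2⟩ := hA' θ1 m1 θ2 m2 b (a + b) (by rw [e1, e2])
  obtain ⟨η1, mη, f3, f4⟩ := hA' θ3 m3 θ4 m4 (b + p) (a + (b + p)) (by rw [e3, e4])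
  rw [e1] at f1 f2
  rw [e3] at f3 f4
  have z1 : ω1 a = 0 := by
    rw [map_add, f1] at f2
    exact add_eq_right.1 f2
  have z2 : η1 a = 0 := by
    rw [map_add, f3] at f4
    exact add_eq_right.1 f4
  obtain ⟨δ, ⟨mδ, d1⟩, d2, d3⟩ := hd ω1 ⟨mω, z1⟩ η1 ⟨mη, z2⟩ b (b + p) (by rw [f1, f3])
  rw [f1] at d2 d3
  refine ⟨δ, mδ, d2, d1, ?_⟩
  rw [map_add, d2] at d3
  exact add_eq_left.1 d3

/-- the final step -/
theorem final (H : Hyp A A') (hA' : Linked A') {a b p : V} (hd : Linked (kil A' a)) {f : Dl V}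
    {ω ζ κ1 : Frm V} (hω : ω ∈ A) (hωb : ω b = 0) (hωa : ω a = f) (hω' : ω ∉ A')
    (hζ : ζ ∈ A) (hζa : ζ a = f) (hζp : ζ p = f) (hζ' : ζ ∉ A')
    (h3 : ∃ θ ∈ A', θ (b + p) = ζ b)
    (hκ : κ1 ∈ A) (hκ1 : κ1 (a + (b + p)) = 0) (hκ' : κ1 ∉ A') :
    ∃ ξ ∈ kil A b, ξ a = f ∧ ξ p = f := by
  have hzw := H.idx ζ hζ ω hω hζ' hω'
  obtain ⟨δ, m, d1, d2, d3⟩ := plane (b := b) (p := p) (g := ζ b) hA' hd
    ⟨ζ + ω, hzw, by rw [LinearMap.add_apply, hωb, add_zero]⟩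
    ⟨ζ + ω, hzw, by rw [map_add, LinearMap.add_apply, LinearMap.add_apply, hωb, hωa, hζa, vadd,
      zero_add, add_zero]⟩ h3
    ⟨ζ + κ1, H.idx ζ hζ κ1 hκ hζ' hκ', by
      rw [LinearMap.add_apply, hκ1, add_zero, map_add, map_add, hζa, hζp, add_comm, add_assoc,
        vadd, add_zero]⟩
  refine ⟨ζ + δ, ⟨A.add_mem hζ (H.le m), ?_⟩, ?_, ?_⟩
  · rw [LinearMap.add_apply, d1, vadd]
  · rw [LinearMap.add_apply, d2, add_zero, hζa]
  · rw [LinearMap.add_apply, d3, add_zero, hζp]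

/-- if no member of `A'_b` has the value `f` at `a`, then some member of `A` outside `A'` does,
and one of `a`, `a + b` is only killed by members of `A'` -/
theorem side (H : Hyp A A') (hA' : Linked A') {a b : V} {f : Dl V} {ω : Frm V} (hω : ω ∈ A)
    (hωb : ω b = 0) (hωa : ω a = f) (hn : ∀ η ∈ A', η b = 0 → η a ≠ f) :
    ω ∉ A' ∧ ((∀ κ ∈ A, κ a = 0 → κ ∈ A') ∨ (∀ κ ∈ A, κ (a + b) = 0 → κ ∈ A')) := by
  have h0 : ω ∉ A' := fun h => hn ω h hωb hωa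
  refine ⟨h0, ?_⟩
  have h1 : ∀ κ ∈ A, κ a = 0 → κ b = 0 → κ ∈ A' := by
    intro κ hκ h1 h2
    by_contra h3
    refine hn (ω + κ) (H.idx ω hω κ hκ h0 h3) ?_ ?_
    · rw [LinearMap.add_apply, hωb, h2, add_zero]
    · rw [LinearMap.add_apply, hωa, h1, add_zero]
  rcases H.good hA' a b h1 with h | h | h
  · exact Or.inl h
  · exact absurd (h ω hω hωb) h0
  · exact Or.inr h

/-- main case: `A_a ≤ A'` -/
theorem main (H : Hyp A A') (hA : Linked A) (hA' : Linked A') {a b c : V}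
    (hd : Linked (kil A' a)) {f : Dl V} {ω η : Frm V} (hω : ω ∈ A)
    (hωb : ω b = 0) (hωa : ω a = f) (hη : η ∈ A) (hηb : η b = 0) (hηc : η c = f)
    (hω' : ω ∉ A') (ha : ∀ κ ∈ A, κ a = 0 → κ ∈ A') :
    ∃ ξ ∈ kil A b, ξ a = f ∧ ξ c = f := by
  have hI : ∀ ξ ∈ A, ξ a = f → ξ ∉ A' := by
    intro ξ hξ h1 h2
    have h3 : ξ + ω ∈ A' := by
      refine ha _ (A.add_mem hξ hω) ?_
      rw [LinearMap.add_apply, h1, hωa, vadd]
    exact H.not_mem h2 hω' h3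
  have hlk : ∀ p : V, η p = f → ∃ ζ ∈ A, ζ a = f ∧ ζ p = f ∧ ζ ∉ A' := by
    intro p hp
    obtain ⟨ζ, hζ, h1, h2⟩ := hA ω hω η hη a p (by rw [hωa, hp])
    rw [hωa] at h1 h2
    exact ⟨ζ, hζ, h1, h2, hI ζ hζ h1⟩
  obtain ⟨ζ, hζ, h1, h2, h3⟩ := hlk c hηc
  obtain ⟨κ, hκ, h4, h5, h6⟩ := hlk (b + c) (by rw [map_add, hηb, zero_add, hηc])
  refine final H hA' hd hω hωb hωa hω' hζ h1 h2 h3 ?_ hκ (by rw [map_add, h4, h5, vadd]) h6
  by_cases hc : η ∈ A'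
  · refine ⟨(η + ζ) + (η + κ), H.idx _ (A.add_mem hη hζ) _ (A.add_mem hη hκ) (H.not_mem hc h3)
      (H.not_mem hc h6), ?_⟩
    have e1 : (η + ζ) (b + c) = ζ b := by
      rw [LinearMap.add_apply, map_add, map_add, hηb, hηc, h2, zero_add, add_comm (ζ b) f,
        ← add_assoc, vadd, zero_add]
    have e2 : (η + κ) (b + c) = 0 := by
      rw [LinearMap.add_apply, h5, map_add, hηb, hηc, zero_add, vadd]
    rw [LinearMap.add_apply, e1, e2, add_zero]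
  · refine ⟨η + ζ, H.idx η hη ζ hζ hc h3, ?_⟩
    rw [LinearMap.add_apply, map_add, map_add, hηb, hηc, h2, zero_add, add_comm (ζ b) f,
      ← add_assoc, vadd, zero_add]

/-- **main step** -/
theorem step (H : Hyp A A') (hA : Linked A) (hA' : Linked A') (hd : ∀ d, Linked (kil A' d))
    (b : V) : Linked (kil A b) := by
  -- one-sided version
  have key : ∀ (ω η : Frm V) (a c : V), ω ∈ A → ω b = 0 → η ∈ A → η b = 0 → ω a = η c →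
      (∀ ω' ∈ A', ω' b = 0 → ω' a ≠ ω a) → ∃ ζ ∈ kil A b, ζ a = ω a ∧ ζ c = ω a := by
    intro ω η a c hω hωb hη hηb hac hn
    obtain ⟨h0, h1⟩ := side H hA' hω hωb rfl hn
    rcases h1 with h1 | h1
    · exact main H hA hA' (hd a) hω hωb rfl hη hηb hac.symm h0 h1
    · have h2 : ω (a + b) = ω a := by rw [map_add, hωb, add_zero]
      obtain ⟨ξ, hξ, e1, e2⟩ := main H hA hA' (hd (a + b)) hω hωb h2 hη hηb hac.symm h0 h1
      refine ⟨ξ, hξ, ?_, e2⟩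
      rw [map_add, hξ.2, add_zero] at e1
      exact e1
  rintro ω ⟨hω, hωb⟩ η ⟨hη, hηb⟩ a c hac
  by_cases h1 : ∃ ω' ∈ A', ω' b = 0 ∧ ω' a = ω a
  · by_cases h2 : ∃ η' ∈ A', η' b = 0 ∧ η' c = η c
    · obtain ⟨ω', m1, b1, e1⟩ := h1
      obtain ⟨η', m2, b2, e2⟩ := h2
      obtain ⟨ζ, ⟨hζ, z1⟩, z2, z3⟩ := hd b ω' ⟨m1, b1⟩ η' ⟨m2, b2⟩ a c (by rw [e1, e2, hac])
      rw [e1] at z2 z3
      exact ⟨ζ, ⟨H.le hζ, z1⟩, z2, z3⟩
    · push Not at h2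
      obtain ⟨ζ, hζ, e1, e2⟩ := key η ω c a hη hηb hω hωb hac.symm h2
      rw [← hac] at e1 e2
      exact ⟨ζ, hζ, e2, e1⟩
  · push Not at h1
    exact key ω η a c hω hωb hη hηb hac h1

end

end Pool.Agent.H89FL
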