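import Pool.Agent.H89FL.El
import Pool.Agent.H89QU.Val
import Pool.Agent.TH188.ET.Eight

set_option autoImplicit false
set_option linter.unusedSectionVars false

/-!
Quaternionic structures with values in a group, and their quotients.
-/

namespace Pool.Agent.H89FL

open Pool.Agent.H315R3.ETC Pool.Agent.W622.ETG Module
open Pool.Agent.TH188.ET (exists_char exists_factor)
open Pool.Agent.TH188.ET8 (QD_eq QD_zero isQuat_QD linked_of_PE PE_of_MX Closed)

universe v

/-- the quaternionic map has values in the group `B`, in a universal way -/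
structure Sys (S : QData) {B : Type v} [AddCommGroup B] (β : S.G → S.G → B) : Prop where
  isq : IsQuat S
  fin : Finite S.G
  two : ∀ b : B, b + b = 0
  mul : ∀ a b c, β a (b * c) = β a b + β a c
  iff : ∀ a b c d, β a b = β c d ↔ S.q a b = S.q c d
  uni : ∀ χ : S.G → S.G → ZMod 2, (∀ a b c, χ (a * b) c = χ a c + χ b c) →
    (∀ a b c, χ a (b * c) = χ a b + χ a c) → (∀ a b, S.q a b = S.zero → χ a b = 0) →
    ∃ l : B →+ ZMod 2, ∀ a b, l (β a b) = χ a b
  gen : ∀ l : B →+ ZMod 2, (∀ a b, l (β a b) = 0) → l = 0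

section
variable {S : QData} {B : Type v} [AddCommGroup B] {β : S.G → S.G → B}

theorem Sys.q1 (H : Sys S β) (a : S.G) : S.q a 1 = S.zero := by
  have := (H.isq.qs3 a 1 1).1 rfl
  rwa [mul_one] at this

theorem Sys.b1 (H : Sys S β) (a : S.G) : β a 1 = 0 := by
  have := H.mul a 1 1
  rw [mul_one] at this
  exact left_eq_add.1 this

theorem Sys.bz (H : Sys S β) (a b : S.G) : β a b = 0 ↔ S.q a b = S.zero := by
  rw [← H.b1 a, ← H.q1 a, H.iff]

theorem Sys.sym (H : Sys S β) (a b : S.G) : β a b = β b a := (H.iff _ _ _ _).2 (H.isq.qs2 a b)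

theorem Sys.mul' (H : Sys S β) (a b c : S.G) : β (a * b) c = β a c + β b c := by
  rw [H.sym, H.mul, H.sym c, H.sym c]

theorem Sys.eqz (H : Sys S β) {x y : B} : x + y = 0 ↔ x = y := by
  constructor
  · intro h
    have h1 := H.two y
    rw [← h1] at h
    exact add_right_cancel h
  · rintro rfl; exact H.two x

/-- linkage modulo `C` -/
def LinkedG (β : S.G → S.G → B) (C : AddSubgroup B) : Prop :=
  ∀ a b c d : S.G, β a b + β c d ∈ C → ∃ x, β a b + β a x ∈ C ∧ β c d + β c x ∈ C

/-- `C'` contains `C`, with index at most two -/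
def Index2 (C C' : AddSubgroup B) : Prop :=
  C ≤ C' ∧ ∀ u ∈ C', ∀ v ∈ C', u ∈ C ∨ v ∈ C ∨ u + v ∈ C

variable [Module (ZMod 2) (Additive S.G)]

/-- the form of a character -/
noncomputable def frm (H : Sys S β) (l : B →+ ZMod 2) : Frm (Additive S.G) :=
  AddMonoidHom.toZModLinearMap 2
    { toFun := fun a => AddMonoidHom.toZModLinearMap 2
        { toFun := fun b => l (β a.toMul b.toMul)
          map_zero' := by
            show l (β a.toMul 1) = 0
            rw [H.b1, map_zero]
          map_add' := fun b c => by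
            show l (β a.toMul (b.toMul * c.toMul)) = _
            rw [H.mul, map_add] }
      map_zero' := by
        ext b
        show l (β 1 b.toMul) = 0
        rw [H.sym, H.b1, map_zero]
      map_add' := fun a a' => by
        ext b
        show l (β (a.toMul * a'.toMul) b.toMul) = l _ + l _
        rw [H.mul', map_add] }

theorem frm_apply (H : Sys S β) (l : B →+ ZMod 2) (a b : Additive S.G) :
    frm H l a b = l (β a.toMul b.toMul) := rfl

/-- the family of the characters which vanish on `C` -/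
noncomputable def fam (H : Sys S β) (C : AddSubgroup B) : Fam (Additive S.G) where
  carrier := {ω | ∃ l : B →+ ZMod 2, (∀ c ∈ C, l c = 0) ∧ ω = frm H l}
  add_mem' := by
    rintro _ _ ⟨l, hl, rfl⟩ ⟨l', hl', rfl⟩
    exact ⟨l + l', fun c hc => by rw [AddMonoidHom.add_apply, hl c hc, hl' c hc, add_zero],
      by ext a b; rfl⟩
  zero_mem' := ⟨0, fun _ _ => rfl, by ext a b; rfl⟩
  smul_mem' := by
    rintro c _ ⟨l, hl, rfl⟩
    refine ⟨c.val • l, fun x hx => by rw [AddMonoidHom.nsmul_apply, hl x hx, smul_zero], ?_⟩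
    ext a b
    rw [LinearMap.smul_apply, LinearMap.smul_apply, frm_apply, frm_apply,
      AddMonoidHom.nsmul_apply]
    simp

theorem mem_fam {H : Sys S β} {C : AddSubgroup B} {ω : Frm (Additive S.G)} :
    ω ∈ fam H C ↔ ∃ l : B →+ ZMod 2, (∀ c ∈ C, l c = 0) ∧ ω = frm H l := Iff.rfl

/-- the distinguished element -/
abbrev ee (S : QData) : Additive S.G := Additive.ofMul S.neg

theorem fam_efam (H : Sys S β) (C : AddSubgroup B) : EFam (ee S) (fam H C) := by
  rintro ω ⟨l, -, rfl⟩
  constructor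
  · intro a b
    rw [frm_apply, frm_apply, H.sym]
  · intro a
    have h1 : β a.toMul (S.neg * a.toMul) = 0 := (H.bz _ _).2 (H.isq.qs1 a.toMul)
    rw [H.mul, H.eqz] at h1
    rw [frm_apply, frm_apply, ← h1]
    rfl

theorem linked_fam (H : Sys S β) {C : AddSubgroup B} (hC : LinkedG β C) :
    Linked (fam H C) := by
  rintro ω ⟨l, hl, rfl⟩ η ⟨m, hm, rfl⟩ a c hac
  have hac' : ∀ b, l (β a.toMul b) = m (β c.toMul b) := by
    intro b
    have := LinearMap.congr_fun hac (Additive.ofMul b)
    rwa [frm_apply, frm_apply] at this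
  let Φ : Additive S.G × Additive S.G →+ B :=
    AddMonoidHom.mk' (fun z => β a.toMul z.1.toMul + β c.toMul z.2.toMul) (by
      intro z z'
      simp only [Prod.fst_add, Prod.snd_add, toMul_add, H.mul]
      abel)
  let Λ : Additive S.G × Additive S.G →+ ZMod 2 :=
    AddMonoidHom.mk' (fun z => l (β a.toMul z.1.toMul) + m (β c.toMul z.2.toMul)) (by
      intro z z'
      simp only [Prod.fst_add, Prod.snd_add, toMul_add, H.mul, map_add]
      abel)
  have hB' : ∀ b : B ⧸ C, b + b = 0 := by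
    intro b
    obtain ⟨x, rfl⟩ := QuotientAddGroup.mk_surjective b
    rw [← QuotientAddGroup.mk_add, H.two]
    rfl
  obtain ⟨k, hk⟩ := exists_factor hB' ((QuotientAddGroup.mk' C).comp Φ) Λ (by
    rintro ⟨b, d⟩ h
    have h1 : β a.toMul b.toMul + β c.toMul d.toMul ∈ C :=
      (QuotientAddGroup.eq_zero_iff _).1 h
    obtain ⟨x, hx1, hx2⟩ := hC _ _ _ _ h1
    have e1 := hl _ hx1
    have e2 := hm _ hx2
    rw [map_add] at e1 e2
    show l (β a.toMul b.toMul) + m (β c.toMul d.toMul) = 0
    rw [CharTwo.add_eq_zero.1 e1, CharTwo.add_eq_zero.1 e2, hac']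
    exact CharTwo.add_self_eq_zero _)
  have hk0 : ∀ x ∈ C, (k.comp (QuotientAddGroup.mk' C)) x = 0 := by
    intro x hx
    have : (QuotientAddGroup.mk' C) x = 0 := (QuotientAddGroup.eq_zero_iff x).2 hx
    show k (QuotientAddGroup.mk' C x) = 0
    rw [this, map_zero]
  refine ⟨frm H (k.comp (QuotientAddGroup.mk' C)), ⟨_, hk0, rfl⟩, ?_, ?_⟩
  · ext b
    rw [frm_apply, frm_apply]
    have := hk (b, 0)
    have h1 : Φ (b, 0) = β a.toMul b.toMul := by
      show β a.toMul b.toMul + β c.toMul 1 = _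
      rw [H.b1, add_zero]
    have h2 : Λ (b, 0) = l (β a.toMul b.toMul) := by
      show l (β a.toMul b.toMul) + m (β c.toMul 1) = _
      rw [H.b1, map_zero, add_zero]
    rw [AddMonoidHom.comp_apply, h1, h2] at this
    exact this
  · ext b
    rw [frm_apply, frm_apply]
    have := hk (0, b)
    have h1 : Φ (0, b) = β c.toMul b.toMul := by
      show β a.toMul 1 + β c.toMul b.toMul = _
      rw [H.b1, zero_add]
    have h2 : Λ (0, b) = m (β c.toMul b.toMul) := by
      show l (β a.toMul 1) + m (β c.toMul b.toMul) = _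
      rw [H.b1, map_zero, zero_add]
    rw [AddMonoidHom.comp_apply, h1, h2] at this
    exact this.trans (hac' _).symm

/-- membership in `C` is detected by the family, on sums of two values -/
theorem mem_of_fam (H : Sys S β) {C : AddSubgroup B} {a b c d : S.G}
    (h : ∀ ω ∈ fam H C, ω (Additive.ofMul a) (Additive.ofMul b) =
      ω (Additive.ofMul c) (Additive.ofMul d)) : β a b + β c d ∈ C := by
  by_contra hcon
  obtain ⟨l, h1, h2⟩ := exists_char C (fun x => by rw [H.two]; exact C.zero_mem) _ hcon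
  apply h2
  rw [map_add]
  have h3 := h (frm H l) ⟨l, h1, rfl⟩
  rw [frm_apply, frm_apply] at h3
  have h4 : l (β a b) = l (β c d) := h3
  rw [h4]
  exact CharTwo.add_self_eq_zero _

theorem eq_of_mem (H : Sys S β) {C : AddSubgroup B} {a b c d : S.G} (h : β a b + β c d ∈ C)
    {ω : Frm (Additive S.G)} (hω : ω ∈ fam H C) :
    ω (Additive.ofMul a) (Additive.ofMul b) = ω (Additive.ofMul c) (Additive.ofMul d) := by
  obtain ⟨l, hl, rfl⟩ := hω
  have h1 := hl _ h
  rw [map_add] at h1
  exact CharTwo.add_eq_zero.1 h1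

theorem hyp_fam (H : Sys S β) {C C' : AddSubgroup B} (h : Index2 C C') :
    Hyp (fam H C) (fam H C') where
  le := by
    rintro _ ⟨l, hl, rfl⟩
    exact ⟨l, fun c hc => hl c (h.1 hc), rfl⟩
  idx := by
    rintro _ ⟨l, hl, rfl⟩ _ ⟨m, hm, rfl⟩ h1 h2
    have hl' : ∃ u ∈ C', l u ≠ 0 := by
      by_contra hcon
      push Not at hcon
      exact h1 ⟨l, hcon, rfl⟩
    have hm' : ∃ u ∈ C', m u ≠ 0 := by
      by_contra hcon
      push Not at hcon
      exact h2 ⟨m, hcon, rfl⟩
    obtain ⟨u, hu, hu1⟩ := hl'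
    obtain ⟨v, hv, hv1⟩ := hm'
    refine ⟨l + m, fun c hc => ?_, by ext a b; rfl⟩
    have hu2 : u ∉ C := fun h => hu1 (hl u h)
    have hv2 : v ∉ C := fun h => hv1 (hm v h)
    by_cases hcC : c ∈ C
    · rw [AddMonoidHom.add_apply, hl c hcC, hm c hcC, add_zero]
    · have e1 : u + c ∈ C := ((h.2 u hu c hc).resolve_left hu2).resolve_left hcC
      have e2 : v + c ∈ C := ((h.2 v hv c hc).resolve_left hv2).resolve_left hcC
      have e3 := hl _ e1
      have e4 := hm _ e2
      rw [map_add] at e3 e4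
      rw [AddMonoidHom.add_apply, ← CharTwo.add_eq_zero.1 e3, ← CharTwo.add_eq_zero.1 e4,
        z_ne hu1, z_ne hv1]
      exact zadd 1

theorem fam_top (H : Sys S β) : fam H (⊤ : AddSubgroup B) = ⊥ := by
  rw [eq_bot_iff]
  rintro _ ⟨l, hl, rfl⟩
  rw [Submodule.mem_bot]
  ext a b
  exact hl _ (AddSubgroup.mem_top _)

/-- closedness of `fam C` -/
theorem closed_fam (H : Sys S β) {C : AddSubgroup B}
    (hC : C ≤ AddSubgroup.closure {t | t ∈ C ∧ ∃ a b, t = β a b}) : Closed (fam H C) := by
  intro ω hω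
  obtain ⟨l, hl⟩ := H.uni (fun a b => ω (Additive.ofMul a) (Additive.ofMul b))
    (fun a b c => by rw [ofMul_mul, map_add]; rfl)
    (fun a b c => by rw [ofMul_mul, map_add])
    (fun a b hab => by
      refine hω _ _ ?_
      rintro _ ⟨m, -, rfl⟩
      rw [frm_apply]
      have : β a b = 0 := (H.bz a b).2 hab
      show m (β a b) = 0
      rw [this, map_zero])
  refine ⟨l, fun c hc => ?_, ?_⟩
  · have h1 : AddSubgroup.closure {t | t ∈ C ∧ ∃ a b, t = β a b} ≤ l.ker := by
      rw [AddSubgroup.closure_le]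
      rintro t ⟨ht, a, b, rfl⟩
      show l (β a b) = 0
      rw [hl]
      refine hω _ _ ?_
      rintro _ ⟨m, hm, rfl⟩
      exact hm _ ht
    exact h1 (hC hc)
  · ext a b
    rw [frm_apply, hl]
    rfl

/-- closed linked families whose structure is of elementary type are hereditarily linked -/
theorem hered_of_elem {V : Type} [AddCommGroup V] [Module (ZMod 2) V] [Finite V] {e : V}
    {A : Fam V} (hA : EFam e A) (hL : Linked A) (hcl : Closed A) (hE : Elem (QD e A)) :
    Hered A := by
  obtain ⟨-, hPL, -, hconv⟩ := Pool.Agent.W622.ETG.all_parts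
  have hMX : MX (QD e A) := hconv _ (isQuat_QD hPL hA hL) hE
  exact fun X => linked_of_PE hA X fun a c => PE_of_MX hcl hMX _

theorem closed_of_uni {V : Type} [AddCommGroup V] [Module (ZMod 2) V] [Finite V] {e u : V}
    {A : Fam V} (H : Pool.Agent.H89QU.Uni e u A) : Closed A := by
  intro ω hω
  have hloc : ∀ a : V, ∃ ξ ∈ A, ξ a = ω a := by
    intro a
    have h1 : ω a ∈ Submodule.map (LinearMap.applyₗ a : Frm V →ₗ[ZMod 2] Dl V) A := by
      refine mem_of_coann fun b hb => hω a b ?_
      intro η hη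
      exact hb _ ⟨η, hη, rfl⟩
    obtain ⟨ξ, hξ, h2⟩ := h1
    exact ⟨ξ, hξ, h2⟩
  obtain ⟨ξ, hξ, h1⟩ := hloc u
  have h2 : ω = ξ := by
    refine LinearMap.ext fun a => ?_
    obtain ⟨α, hα, e1⟩ := hloc a
    obtain ⟨α', hα', e2⟩ := hloc (a + u)
    have e3 : (α + ξ) a = (α' + ξ) (a + u) := by
      rw [LinearMap.add_apply, LinearMap.add_apply, e1, e2, map_add, map_add, h1]
      have : ω a + ω u + (ξ a + ω u) = ω a + ξ a + (ω u + ω u) := by abel
      rw [this, vadd, add_zero]
    obtain ⟨ζ, hζ, e4, e5⟩ := H.li _ (A.add_mem hα hξ) _ (A.add_mem hα' hξ) a (a + u) e3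
    have e6 : ζ u = 0 := by
      rw [map_add, e4] at e5
      exact add_eq_left.1 e5
    rw [H.un ζ hζ e6] at e4
    have e7 : (α + ξ) a = 0 := e4.symm
    rw [LinearMap.add_apply, e1] at e7
    exact aez.1 e7
  rw [h2]
  exact hξ

end

end Pool.Agent.H89FL
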